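import Pool.Agent.K7.H46.TW.Block

set_option autoImplicit false

/-!
# Chains of blocks
-/

namespace Pool.Agent.K7.H46.TW

open Pool.Agent.Y479.LS Pool.Agent.K7.H39.TB Pool.Agent.K7.H46.LO Aut

variable {X : Type*} [LinearOrder X]

theorem const_of_le {f : ZMod 3 → X} (h : ∀ t, f (t + 1) ≤ f t) (t : ZMod 3) : f t = f 0 := by
  have h0 := h 0
  have h1 := h 1
  have h2 := h 2
  have e1 : (0 + 1 : ZMod 3) = 1 := by decide
  have e2 : (1 + 1 : ZMod 3) = 2 := by decide
  have e3 : (2 + 1 : ZMod 3) = 0 := by decide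
  rw [e1] at h0
  rw [e2] at h1
  rw [e3] at h2
  rcases zmod3_cases 0 t with rfl | rfl | rfl
  · rfl
  · rw [zero_add]; exact le_antisymm h0 (h2.trans h1)
  · rw [zero_add]; exact le_antisymm (h1.trans h0) h2

theorem Tri.iff_eq {W E S N : Aut X} (h : Tri W E S N) (p : X) : W p = E p ↔ S p = N p := by
  have h1 := h.1 p
  constructor
  · intro h2
    exact le_antisymm (h1.2.mp h2.ge) (h1.1.mp h2.le)
  · intro h2
    exact le_antisymm (h1.1.mpr h2.ge) (h1.2.mpr h2.le)

/-! ### the chain -/

/-- the rules for a tangle of the sign `b` -/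
def Tri' (b : Bool) (W E S N : Aut X) : Prop := if b then Tri W E S N else Tri W E N S

/-- the columns of a block that starts at the letter `j`, for the sign `b` -/
def fam (R : ℕ → ZMod 3 → Aut X) (b : Bool) (j i : ℕ) (t : ZMod 3) : Aut X :=
  if b then R (j + i) t else R (j + i) (-t - i)

variable {R : ℕ → ZMod 3 → Aut X} {ε : ℕ → Bool} {k : ℕ}

/-- the rules of a chain of `k` columns of tangles -/
def Chn (R : ℕ → ZMod 3 → Aut X) (ε : ℕ → Bool) (k : ℕ) : Prop :=
  ∀ c, c < k → ∀ t, Tri' (ε c) (R c (t + 1)) (R (c + 2) t) (R (c + 1) t) (R (c + 1) (t + 1))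

theorem Chn.blk (h : Chn R ε k) {b : Bool} {j r : ℕ} (hr : j + r ≤ k)
    (hb : ∀ i, j ≤ i → i < j + r → ε i = b) : Blk r (fam R b j) := by
  intro i hi t
  cases b with
  | true =>
    have h1 := h (j + i) (by omega) t
    rw [hb _ (by omega) (by omega)] at h1
    exact h1
  | false =>
    have h1 := h (j + i) (by omega) (-t - i - 2)
    rw [hb _ (by omega) (by omega)] at h1
    simp only [fam, Tri', Bool.false_eq_true, if_false] at h1 ⊢
    have e1 : -(t + 1) - (i : ZMod 3) = -t - i - 2 + 1 := by ring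
    have e2 : -t - ((i + 2 : ℕ) : ZMod 3) = -t - i - 2 := by push_cast; ring
    have e3 : -t - ((i + 1 : ℕ) : ZMod 3) = -t - i - 2 + 1 := by push_cast; ring
    have e4 : -(t + 1) - ((i + 1 : ℕ) : ZMod 3) = -t - i - 2 := by push_cast; ring
    rw [e1, e2, e3, e4]
    exact h1

theorem fam_shift (b : Bool) (j r i : ℕ) (t : ZMod 3) :
    fam R b j (r + i) t = fam R b (j + r) i (t + if b then 0 else (r : ZMod 3)) := by
  cases b with
  | true => simp [fam, Nat.add_assoc]
  | false =>
    simp only [fam, Bool.false_eq_true, if_false, Nat.add_assoc]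
    congr 1
    push_cast
    ring

theorem rgt_shift {b : Bool} {j r : ℕ} :
    Rgt (fam R b j r) (fam R b j (r + 1)) ↔ Rgt (fam R b (j + r) 0) (fam R b (j + r) 1) := by
  have e0 : fam R b j r = fun t => fam R b (j + r) 0 (t + if b then 0 else (r : ZMod 3)) := by
    funext t; exact fam_shift b j r 0 t
  have e1 : fam R b j (r + 1) = fun t => fam R b (j + r) 1 (t + if b then 0 else (r : ZMod 3)) := by
    funext t; exact fam_shift b j r 1 t
  constructor
  · intro h
    rw [e0, e1] at h
    have := h.shift (-(if b then 0 else (r : ZMod 3)))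
    simp only [neg_add_cancel_right] at this
    exact this
  · intro h
    rw [e0, e1]
    exact h.shift _

theorem lft_flip {b : Bool} {j : ℕ} (h : Rgt (fam R (!b) j 0) (fam R (!b) j 1)) :
    Lft (fam R b j 0) (fam R b j 1) := by
  have h1 := h.lft
  have e0 : fam R b j 0 = fun t => fam R (!b) j 0 (-t) := by
    funext t
    cases b <;> simp [fam]
  have e1 : fam R b j 1 = fun t => fam R (!b) j 1 (-t - 1) := by
    funext t
    cases b <;> simp [fam]
  rw [e0, e1]
  exact h1

/-- Induction along the chain. -/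
theorem inv {m : ℕ} (hC : ∀ E r, 1 ≤ r → r ≤ m → Certs E r) (h : Chn R ε k)
    (h0 : ∀ t, R 0 t = R 0 0)
    (hrun : ∀ j, j + m < k → ∃ i, j ≤ i ∧ i ≤ j + m ∧ ε i ≠ ε j) :
    ∀ e, 1 ≤ e → e ≤ k → ∃ j, j < e ∧ (∀ i, j ≤ i → i < e → ε i = ε j) ∧
      (j = 0 ∨ (ε (j - 1) ≠ ε j ∧ Lft (fam R (ε j) j 0) (fam R (ε j) j 1))) ∧
      ∀ i, j < i → i ≤ e → Rgt (fam R (ε j) i 0) (fam R (ε j) i 1) := by
  -- one step
  have key : ∀ e j, j ≤ e → e < k → (∀ i, j ≤ i → i < e + 1 → ε i = ε j) →
      (j = 0 ∨ Lft (fam R (ε j) j 0) (fam R (ε j) j 1)) →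
      (∀ i, j < i → i ≤ e → Rgt (fam R (ε j) i 0) (fam R (ε j) i 1)) →
      Rgt (fam R (ε j) (e + 1) 0) (fam R (ε j) (e + 1) 1) := by
    intro e j hj he hs hl hr
    obtain ⟨r, hr1⟩ : ∃ r, e + 1 = j + r := ⟨e + 1 - j, by omega⟩
    have hm : r ≤ m := by
      by_contra hm
      obtain ⟨i, h1, h2, h3⟩ := hrun j (by omega)
      exact h3 (hs i h1 (by omega))
    rw [hr1, ← rgt_shift]
    have hB : Blk r (fam R (ε j) j) := h.blk (by omega) (fun i h1 h2 => hs i h1 (by omega))
    have hR : ∀ i, 1 ≤ i → i < r → Rgt (fam R (ε j) j i) (fam R (ε j) j (i + 1)) := by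
      intro i h1 h2
      rw [rgt_shift]
      exact hr _ (by omega) (by omega)
    rcases Nat.eq_zero_or_pos j with rfl | hj0
    · refine rgt_of (hC true r (by omega) hm) hB ?_ (by simp) hR
      intro _ t
      cases ε 0 <;> simp only [fam, Nat.zero_add, Bool.false_eq_true, if_false, if_true]
      · rw [h0 (-t - _), h0 (-0 - _)]
      · exact h0 t
    · refine rgt_of (hC false r (by omega) hm) hB (by simp [Lc]) (fun _ => ?_) hR
      rcases hl with hl | hl
      · omega
      · exact hl
  intro e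
  induction e with
  | zero => intro h1; omega
  | succ e ih =>
    intro _ he
    rcases Nat.eq_zero_or_pos e with rfl | he0
    · refine ⟨0, by omega, fun i _ h2 => by rw [show i = 0 by omega], Or.inl rfl, ?_⟩
      intro i h1 h2
      obtain rfl : i = 0 + 1 := by omega
      exact key 0 0 le_rfl (by omega) (fun i _ h2 => by rw [show i = 0 by omega]) (Or.inl rfl)
        (fun i h1 h2 => by omega)
    · obtain ⟨j, hj, hs, hl, hr⟩ := ih he0 (by omega)
      by_cases hε : ε e = ε j
      · have hs' : ∀ i, j ≤ i → i < e + 1 → ε i = ε j := by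
          intro i h1 h2
          rcases Nat.lt_succ_iff_lt_or_eq.mp h2 with h3 | rfl
          · exact hs i h1 h3
          · exact hε
        refine ⟨j, by omega, hs', hl, fun i h1 h2 => ?_⟩
        rcases Nat.lt_or_ge e i with h3 | h3
        · obtain rfl : i = e + 1 := by omega
          exact key e j (by omega) (by omega) hs' (hl.imp_right And.right) hr
        · exact hr i h1 h3
      · have hb : ε j = !(ε e) := by
          revert hε; cases ε e <;> cases ε j <;> simp
        have hl' : Lft (fam R (ε e) e 0) (fam R (ε e) e 1) := by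
          apply lft_flip
          rw [← hb]
          exact hr e (by omega) le_rfl
        have hs' : ∀ i, e ≤ i → i < e + 1 → ε i = ε e := fun i h1 h2 => by
          rw [show i = e by omega]
        have hne : ε (e - 1) ≠ ε e := by
          rw [hs (e - 1) (by omega) (by omega)]
          exact fun h => hε h.symm
        refine ⟨e, by omega, hs', Or.inr ⟨hne, hl'⟩, fun i h1 h2 => ?_⟩
        obtain rfl : i = e + 1 := by omega
        exact key e e le_rfl (by omega) hs' (Or.inr hl') (fun i h1 h2 => by omega)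

/-- the families `v`, `w` are constant at `p` -/
def Tv (v w : ZMod 3 → Aut X) (p : X) : Prop := (∀ t, v t p = v 0 p) ∧ (∀ t, w t p = w 0 p)

/-- All regions of a column agree everywhere, and so do the columns of the same parity. -/
theorem all_flat {m : ℕ} (hC : ∀ E r, 1 ≤ r → r ≤ m → Certs E r) (h : Chn R ε k) (hk : 1 ≤ k)
    (h0 : ∀ t, R 0 t = R 0 0) (h1 : ∀ t, R (k + 1) t = R (k + 1) 0)
    (hrun : ∀ j, j + m < k → ∃ i, j ≤ i ∧ i ≤ j + m ∧ ε i ≠ ε j) (p : X) :
    (∀ i, i ≤ k + 1 → ∀ t, R i t p = R i 0 p) ∧ ∀ c, c < k → R c 0 p = R (c + 2) 0 p := by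
  -- the last interface
  obtain ⟨j, hj, hs, hl, hr⟩ := inv hC h h0 hrun k hk le_rfl
  have h2 := hr k hj le_rfl
  have h3 : Tv (R k) (R (k + 1)) p := by
    refine ⟨?_, fun t => by rw [h1 t]⟩
    have h3 : ∀ t, fam R (ε j) k 0 t p = fam R (ε j) k 0 0 p := by
      apply const_of_le (f := fun t => fam R (ε j) k 0 t p)
      intro t
      apply (h2 p t).2.1
      intro u
      cases ε j <;> simp only [fam, Bool.false_eq_true, if_false, if_true]
      · rw [h1 (-u - _), h1 (-t - _)]
      · rw [h1 u, h1 t]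
    intro t
    have h4 := h3 t
    have h5 := h3 (-t)
    cases hb : ε j <;> simp only [hb, fam, Bool.false_eq_true, if_false, if_true,
      Nat.add_zero] at h4 h5
    · have e1 : -(-t) - ((0 : ℕ) : ZMod 3) = t := by push_cast; ring
      have e2 : -(0 : ZMod 3) - ((0 : ℕ) : ZMod 3) = 0 := by push_cast; ring
      rw [e1, e2] at h5
      exact h5
    · exact h4
  have h4 : ∀ d, d ≤ k → Tv (R (k - d)) (R (k - d + 1)) p := by
    intro d
    induction d with
    | zero => intro _; exact h3
    | succ d ih =>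
      intro hd
      have h5 := ih (by omega)
      obtain ⟨c, hc⟩ : ∃ c, k - d = c + 1 := ⟨k - d - 1, by omega⟩
      have hc' : k - (d + 1) = c := by omega
      rw [hc] at h5
      rw [hc']
      refine ⟨?_, h5.1⟩
      have h6 : ∀ t, R c (t + 1) p = R (c + 2) t p := by
        intro t
        have h7 := h c (by omega) t
        unfold Tri' at h7
        split_ifs at h7
        · exact (h7.iff_eq p).mpr ((h5.1 t).trans (h5.1 (t + 1)).symm)
        · exact (h7.iff_eq p).mpr ((h5.1 (t + 1)).trans (h5.1 t).symm)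
      intro t
      have h7 := h6 (t - 1)
      have h8 := h6 (0 - 1)
      rw [sub_add_cancel] at h7 h8
      rw [h7, h8, h5.2 (t - 1), h5.2 (0 - 1)]
  have h5 : ∀ i, i ≤ k → Tv (R i) (R (i + 1)) p := by
    intro i hi
    have := h4 (k - i) (by omega)
    rwa [show k - (k - i) = i by omega] at this
  refine ⟨fun i hi => ?_, fun c hc => ?_⟩
  · rcases Nat.lt_or_ge i (k + 1) with h6 | h6
    · exact (h5 i (by omega)).1
    · obtain rfl : i = k + 1 := by omega
      exact h3.2
  · have h6 := h5 c (by omega)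
    have h7 := h5 (c + 1) (by omega)
    have h8 := h c hc 0
    have h9 : R c (0 + 1) p = R (c + 2) 0 p := by
      unfold Tri' at h8
      split_ifs at h8
      · exact (h8.iff_eq p).mpr (h6.2 (0 + 1)).symm
      · exact (h8.iff_eq p).mpr (h6.2 (0 + 1))
    rw [← h9, h6.1 (0 + 1)]

end Pool.Agent.K7.H46.TW
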