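import Pool.Agent.K7.H46.TW.Check
import Mathlib.Data.ZMod.Basic

set_option autoImplicit false

/-!
# Blocks of columns of positive tangles, with three tangles in each column
-/

namespace Pool.Agent.K7.H46.TW

open Pool.Agent.Y479.LS Pool.Agent.K7.H39.TB Pool.Agent.K7.H46.LO Aut

variable {X : Type*} [LinearOrder X]

/-- The rules for the four regions at a tangle. -/
def Tri (W E S N : Aut X) : Prop :=
  (∀ p : X, (W p ≤ E p ↔ N p ≤ S p) ∧ (E p ≤ W p ↔ S p ≤ N p)) ∧
    (∀ x : X, (E⁻¹ x ≤ W⁻¹ x → S (E⁻¹ x) ≤ N (W⁻¹ x)) ∧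
      (W⁻¹ x ≤ E⁻¹ x → N (W⁻¹ x) ≤ S (E⁻¹ x))) ∧
    (∀ x : X, (S⁻¹ x ≤ N⁻¹ x → W (N⁻¹ x) ≤ E (S⁻¹ x)) ∧
      (N⁻¹ x ≤ S⁻¹ x → E (S⁻¹ x) ≤ W (N⁻¹ x)))

/-- The property of the right side of a block of positive tangles: `x` is the last column of regions
of the block, `y` the column to the right of it. -/
def Rgt (x y : ZMod 3 → Aut X) : Prop :=
  ∀ p t, ((∀ u, x u p ≤ x t p) → y (t - 1) p ≤ y t p) ∧
    ((∀ u, y u p ≤ y t p) → x (t + 1) p ≤ x t p) ∧
    ((∀ u, x t p ≤ x u p) → y t p ≤ y (t - 1) p) ∧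
    ((∀ u, y t p ≤ y u p) → x t p ≤ x (t + 1) p)

/-- The same property for the left side of a block (seen from there, the previous block is negative). -/
def Lft (v w : ZMod 3 → Aut X) : Prop :=
  ∀ p t, ((∀ u, w u p ≤ w t p) → v t p ≤ v (t + 1) p) ∧
    ((∀ u, v u p ≤ v t p) → w t p ≤ w (t - 1) p) ∧
    ((∀ u, w t p ≤ w u p) → v (t + 1) p ≤ v t p) ∧
    ((∀ u, v t p ≤ v u p) → w (t - 1) p ≤ w t p)

/-- time reversal -/
theorem Rgt.lft {x y : ZMod 3 → Aut X} (h : Rgt x y) :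
    Lft (fun t => x (-t)) (fun t => y (-t - 1)) := by
  intro p t
  obtain ⟨-, h2, -, h4⟩ := h p (-t - 1)
  obtain ⟨h1, -, h3, -⟩ := h p (-t)
  have e1 : -(t + 1) = -t - 1 := by ring
  have e2 : -t - 1 + 1 = -t := by ring
  have e3 : -(t - 1) - 1 = -t := by ring
  refine ⟨fun hu => ?_, fun hu => ?_, fun hu => ?_, fun hu => ?_⟩
  · simp only [e1] at hu ⊢
    have := h2 (fun u => by
      have := hu (-u - 1)
      rwa [show -(-u - 1) - 1 = u by ring] at this)
    rwa [e2] at this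
  · simp only [e3] at hu ⊢
    exact h1 (fun u => by have := hu (-u); rwa [neg_neg] at this)
  · simp only [e1] at hu ⊢
    have := h4 (fun u => by
      have := hu (-u - 1)
      rwa [show -(-u - 1) - 1 = u by ring] at this)
    rwa [e2] at this
  · simp only [e3] at hu ⊢
    exact h3 (fun u => by have := hu (-u); rwa [neg_neg] at this)

theorem Rgt.shift {x y : ZMod 3 → Aut X} (h : Rgt x y) (c : ZMod 3) :
    Rgt (fun t => x (t + c)) (fun t => y (t + c)) := by
  intro p t
  obtain ⟨h1, h2, h3, h4⟩ := h p (t + c)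
  have e1 : t - 1 + c = t + c - 1 := by ring
  have e2 : t + 1 + c = t + c + 1 := by ring
  simp only [e1, e2]
  exact ⟨fun hu => h1 fun u => by have := hu (u - c); rwa [sub_add_cancel] at this,
    fun hu => h2 fun u => by have := hu (u - c); rwa [sub_add_cancel] at this,
    fun hu => h3 fun u => by have := hu (u - c); rwa [sub_add_cancel] at this,
    fun hu => h4 fun u => by have := hu (u - c); rwa [sub_add_cancel] at this⟩

theorem Lft.shift {v w : ZMod 3 → Aut X} (h : Lft v w) (c : ZMod 3) :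
    Lft (fun t => v (t + c)) (fun t => w (t + c)) := by
  intro p t
  obtain ⟨h1, h2, h3, h4⟩ := h p (t + c)
  have e1 : t - 1 + c = t + c - 1 := by ring
  have e2 : t + 1 + c = t + c + 1 := by ring
  simp only [e1, e2]
  exact ⟨fun hu => h1 fun u => by have := hu (u - c); rwa [sub_add_cancel] at this,
    fun hu => h2 fun u => by have := hu (u - c); rwa [sub_add_cancel] at this,
    fun hu => h3 fun u => by have := hu (u - c); rwa [sub_add_cancel] at this,
    fun hu => h4 fun u => by have := hu (u - c); rwa [sub_add_cancel] at this⟩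

/-- A block of `r` columns of positive tangles between the columns `0` and `r + 1` of regions. -/
def Blk (r : ℕ) (F : ℕ → ZMod 3 → Aut X) : Prop :=
  ∀ i, i < r → ∀ t, Tri (F i (t + 1)) (F (i + 2) t) (F (i + 1) t) (F (i + 1) (t + 1))

theorem Blk.shift {r : ℕ} {F : ℕ → ZMod 3 → Aut X} (h : Blk r F) (c : ZMod 3) :
    Blk r (fun i t => F i (t + c)) := by
  intro i hi t
  have := h i hi (t + c)
  rw [show t + c + 1 = t + 1 + c by ring] at this
  exact this

/-! ### codes of regions -/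

/-- the code of the region of the column `i` at the time `t` -/
def cd (i t : ℕ) : ℕ := 4 * i + t % 3

/-- the region with a code -/
def gF (F : ℕ → ZMod 3 → Aut X) (n : ℕ) : Aut X := F (n / 4) ((n % 4 : ℕ) : ZMod 3)

theorem gF_cd (F : ℕ → ZMod 3 → Aut X) (i t : ℕ) : gF F (cd i t) = F i (t : ZMod 3) := by
  unfold gF cd
  have e1 : (4 * i + t % 3) / 4 = i := by omega
  have e2 : (4 * i + t % 3) % 4 = t % 3 := by omega
  rw [e1, e2, ZMod.natCast_mod]

/-- The tangle `t` of the column `i`; if `E` is true then the column `0` consists of one region. -/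
def bx (E : Bool) (i t : ℕ) : Box :=
  ⟨if E && i == 0 then 0 else cd i (t + 1), cd (i + 2) t, cd (i + 1) t, cd (i + 1) (t + 1)⟩

def bxs (E : Bool) (r : ℕ) : List Box :=
  (List.range r).flatMap fun i => (List.range 3).map fun t => bx E i t

/-- The column `0` is one region, if `E` is true. -/
def Lc (E : Bool) (F : ℕ → ZMod 3 → Aut X) : Prop := E = true → ∀ t, F 0 t = F 0 0

theorem bx_W {E : Bool} {F : ℕ → ZMod 3 → Aut X} (hE : Lc E F) (i t : ℕ) :
    gF F (bx E i t).W = F i ((t : ZMod 3) + 1) := by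
  unfold bx
  simp only
  split_ifs with h
  · simp only [Bool.and_eq_true, beq_iff_eq] at h
    rw [h.2, hE h.1 ((t : ZMod 3) + 1)]
    simp [gF]
  · rw [gF_cd]; push_cast; rfl

theorem sys_of {E : Bool} {r : ℕ} {F : ℕ → ZMod 3 → Aut X} (hB : Blk r F) (hE : Lc E F) :
    Sys (gF F) (bxs E r) := by
  have key : ∀ b ∈ bxs E r, Tri (gF F b.W) (gF F b.E) (gF F b.S) (gF F b.N) := by
    intro b hb
    simp only [bxs, List.mem_flatMap, List.mem_map, List.mem_range] at hb
    obtain ⟨i, hi, t, ht, rfl⟩ := hb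
    have h := hB i hi (t : ZMod 3)
    rw [bx_W hE]
    simp only [bx, gF_cd]
    push_cast
    exact h
  exact ⟨fun b hb => (key b hb).1, fun b hb => (key b hb).2.1, fun b hb => (key b hb).2.2⟩

/-! ### the rules for the interfaces -/

/-- The four rules for the left side, for `t`. -/
def lr (t : ℕ) : List WRule :=
  [⟨[(cd 1 (t + 1), cd 1 t), (cd 1 (t + 2), cd 1 t)], cd 0 t, cd 0 (t + 1)⟩,
   ⟨[(cd 0 (t + 1), cd 0 t), (cd 0 (t + 2), cd 0 t)], cd 1 t, cd 1 (t + 2)⟩,
   ⟨[(cd 1 t, cd 1 (t + 1)), (cd 1 t, cd 1 (t + 2))], cd 0 (t + 1), cd 0 t⟩,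
   ⟨[(cd 0 t, cd 0 (t + 1)), (cd 0 t, cd 0 (t + 2))], cd 1 (t + 2), cd 1 t⟩]

/-- The four rules for the right side, between the columns `e`, `e + 1`. -/
def rr (e t : ℕ) : List WRule :=
  [⟨[(cd e (t + 1), cd e t), (cd e (t + 2), cd e t)], cd (e + 1) (t + 2), cd (e + 1) t⟩,
   ⟨[(cd (e + 1) (t + 1), cd (e + 1) t), (cd (e + 1) (t + 2), cd (e + 1) t)],
     cd e (t + 1), cd e t⟩,
   ⟨[(cd e t, cd e (t + 1)), (cd e t, cd e (t + 2))], cd (e + 1) t, cd (e + 1) (t + 2)⟩,
   ⟨[(cd (e + 1) t, cd (e + 1) (t + 1)), (cd (e + 1) t, cd (e + 1) (t + 2))],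
     cd e t, cd e (t + 1)⟩]

/-- all rules -/
def rls (E : Bool) (r : ℕ) : List WRule :=
  (if E then [] else (List.range 3).flatMap lr) ++
    (List.range (r - 1)).flatMap fun e => (List.range 3).flatMap fun t => rr (e + 1) t

theorem zmod3_cases (t u : ZMod 3) : u = t ∨ u = t + 1 ∨ u = t + 2 := by
  revert t u; decide

theorem all3 {P : ZMod 3 → Prop} {t : ZMod 3} (h0 : P t) (h1 : P (t + 1)) (h2 : P (t + 2)) :
    ∀ u, P u := by
  intro u
  rcases zmod3_cases t u with rfl | rfl | rfl <;> assumption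

theorem sub_one_eq (t : ZMod 3) : t - 1 = t + 2 := by revert t; decide

theorem wr_of {F : ℕ → ZMod 3 → Aut X} {a₁ b₁ a₂ b₂ a b : ℕ}
    (h : ∀ p, gF F a₁ p ≤ gF F b₁ p → gF F a₂ p ≤ gF F b₂ p → gF F a p ≤ gF F b p) :
    (⟨[(a₁, b₁), (a₂, b₂)], a, b⟩ : WRule).Holds (gF F) := fun p hp =>
  h p (hp (a₁, b₁) (by simp)) (hp (a₂, b₂) (by simp))

theorem lr_holds {F : ℕ → ZMod 3 → Aut X} (h : Lft (F 0) (F 1)) (t : ℕ) :
    ∀ c ∈ lr t, c.Holds (gF F) := by
  intro c hc
  simp only [lr, List.mem_cons, List.not_mem_nil, or_false] at hc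
  rcases hc with rfl | rfl | rfl | rfl <;> refine wr_of fun p => ?_ <;>
    simp only [gF_cd] <;> push_cast <;> intro h1 h2
  · exact (h p t).1 (all3 le_rfl h1 h2)
  · have := (h p t).2.1 (all3 le_rfl h1 h2)
    rwa [sub_one_eq] at this
  · exact (h p t).2.2.1 (all3 le_rfl h1 h2)
  · have := (h p t).2.2.2 (all3 le_rfl h1 h2)
    rwa [sub_one_eq] at this

theorem rr_holds {F : ℕ → ZMod 3 → Aut X} {e : ℕ} (h : Rgt (F e) (F (e + 1))) (t : ℕ) :
    ∀ c ∈ rr e t, c.Holds (gF F) := by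
  intro c hc
  simp only [rr, List.mem_cons, List.not_mem_nil, or_false] at hc
  rcases hc with rfl | rfl | rfl | rfl <;> refine wr_of fun p => ?_ <;>
    simp only [gF_cd] <;> push_cast <;> intro h1 h2
  · have := (h p t).1 (all3 le_rfl h1 h2)
    rwa [sub_one_eq] at this
  · exact (h p t).2.1 (all3 le_rfl h1 h2)
  · have := (h p t).2.2.1 (all3 le_rfl h1 h2)
    rwa [sub_one_eq] at this
  · exact (h p t).2.2.2 (all3 le_rfl h1 h2)

theorem rls_holds {E : Bool} {r : ℕ} {F : ℕ → ZMod 3 → Aut X} (hE : E = false → Lft (F 0) (F 1))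
    (hr : ∀ e, 1 ≤ e → e < r → Rgt (F e) (F (e + 1))) : ∀ c ∈ rls E r, c.Holds (gF F) := by
  intro c hc
  unfold rls at hc
  rw [List.mem_append] at hc
  rcases hc with hc | hc
  · cases E with
    | true => simp at hc
    | false =>
      simp only [Bool.false_eq_true, if_false, List.mem_flatMap] at hc
      obtain ⟨t, -, hc⟩ := hc
      exact lr_holds (hE rfl) t c hc
  · simp only [List.mem_flatMap, List.mem_range] at hc
    obtain ⟨e, he, t, -, hc⟩ := hc
    exact rr_holds (hr (e + 1) (by omega) (by omega)) t c hc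

/-! ### the four certificates of a block -/

/-- the two premises, and the negation of the conclusion, for the property `Rgt` -/
def env0 (r : ℕ) : ℕ → List Fact
  | 0 => [⟨[2 * cd r 1], [2 * cd r 0], false⟩, ⟨[2 * cd r 2], [2 * cd r 0], false⟩,
      ⟨[2 * cd (r + 1) 0], [2 * cd (r + 1) 2], true⟩]
  | 1 => [⟨[2 * cd (r + 1) 1], [2 * cd (r + 1) 0], false⟩,
      ⟨[2 * cd (r + 1) 2], [2 * cd (r + 1) 0], false⟩, ⟨[2 * cd r 0], [2 * cd r 1], true⟩]
  | 2 => [⟨[2 * cd r 0], [2 * cd r 1], false⟩, ⟨[2 * cd r 0], [2 * cd r 2], false⟩,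
      ⟨[2 * cd (r + 1) 2], [2 * cd (r + 1) 0], true⟩]
  | _ => [⟨[2 * cd (r + 1) 0], [2 * cd (r + 1) 1], false⟩,
      ⟨[2 * cd (r + 1) 0], [2 * cd (r + 1) 2], false⟩, ⟨[2 * cd r 1], [2 * cd r 0], true⟩]

/-- certificates for the four parts of `Rgt` -/
def Certs (E : Bool) (r : ℕ) : Prop :=
  ∀ j, j < 4 → ∃ c : CertW, checkW (bxs E r) (rls E r) c (envOf (env0 r j) .lf 0) 3 = true

theorem fact_le {F : ℕ → ZMod 3 → Aut X} {s : X} {i j t u : ℕ}
    (h : F i (t : ZMod 3) s ≤ F j (u : ZMod 3) s) :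
    (⟨[2 * cd i t], [2 * cd j u], false⟩ : Fact).Holds (gF F) s := by
  simp only [Fact.Holds, ev, act_even, gF_cd]
  exact h

theorem fact_lt {F : ℕ → ZMod 3 → Aut X} {s : X} {i j t u : ℕ}
    (h : F i (t : ZMod 3) s < F j (u : ZMod 3) s) :
    (⟨[2 * cd i t], [2 * cd j u], true⟩ : Fact).Holds (gF F) s := by
  simp only [Fact.Holds, ev, act_even, gF_cd]
  exact h

/-- The property of the right side of a block. -/
theorem rgt_of {E : Bool} {r : ℕ} {F : ℕ → ZMod 3 → Aut X} (hC : Certs E r)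
    (hB : Blk r F) (hE : Lc E F) (hL : E = false → Lft (F 0) (F 1))
    (hR : ∀ e, 1 ≤ e → e < r → Rgt (F e) (F (e + 1))) : Rgt (F r) (F (r + 1)) := by
  intro p t
  -- the rotated family
  have key : ∀ j, j < 4 → ¬ (∀ f ∈ env0 r j, f.Holds (gF fun i u => F i (u + t)) p) := by
    intro j hj henv
    obtain ⟨c, hc⟩ := hC j hj
    have hE' : Lc E (fun i u => F i (u + t)) := fun h u => by
      simp only; rw [hE h (u + t), hE h (0 + t)]
    exact checkW_sound (sys_of (hB.shift t) hE') (rls_holds (fun h => (hL h).shift t)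
      (fun e h1 h2 => (hR e h1 h2).shift t)) c _ 3 (envOf_all (t := .lf) henv trivial) hc
  have c1 : ((1 : ℕ) : ZMod 3) = 1 := by decide
  have c2 : ((2 : ℕ) : ZMod 3) = 2 := by decide
  have c0 : ((0 : ℕ) : ZMod 3) = 0 := by decide
  have s1 : (0 : ZMod 3) + t = t := zero_add t
  have s2 : (2 : ZMod 3) + t = t - 1 := by rw [sub_one_eq, add_comm]
  have s3 : (1 : ZMod 3) + t = t + 1 := add_comm _ _
  refine ⟨fun hu => ?_, fun hu => ?_, fun hu => ?_, fun hu => ?_⟩
  · by_contra hn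
    refine key 0 (by omega) ?_
    simp only [env0, List.mem_cons, List.not_mem_nil, or_false, forall_eq_or_imp, forall_eq]
    refine ⟨fact_le ?_, fact_le ?_, fact_lt ?_⟩
    · simp only [c0, c1, s1]; exact hu _
    · simp only [c0, c2, s1]; exact hu _
    · simp only [c0, c2, s1, s2]; exact not_le.mp hn
  · by_contra hn
    refine key 1 (by omega) ?_
    simp only [env0, List.mem_cons, List.not_mem_nil, or_false, forall_eq_or_imp, forall_eq]
    refine ⟨fact_le ?_, fact_le ?_, fact_lt ?_⟩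
    · simp only [c0, c1, s1]; exact hu _
    · simp only [c0, c2, s1]; exact hu _
    · simp only [c0, c1, s1, s3]; exact not_le.mp hn
  · by_contra hn
    refine key 2 (by omega) ?_
    simp only [env0, List.mem_cons, List.not_mem_nil, or_false, forall_eq_or_imp, forall_eq]
    refine ⟨fact_le ?_, fact_le ?_, fact_lt ?_⟩
    · simp only [c0, c1, s1]; exact hu _
    · simp only [c0, c2, s1]; exact hu _
    · simp only [c0, c2, s1, s2]; exact not_le.mp hn
  · by_contra hn
    refine key 3 (by omega) ?_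
    simp only [env0, List.mem_cons, List.not_mem_nil, or_false, forall_eq_or_imp, forall_eq]
    refine ⟨fact_le ?_, fact_le ?_, fact_lt ?_⟩
    · simp only [c0, c1, s1]; exact hu _
    · simp only [c0, c2, s1]; exact hu _
    · simp only [c0, c1, s1, s3]; exact not_le.mp hn

end Pool.Agent.K7.H46.TW
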