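import Pool.Agent.K7.H46.TW.Block

set_option autoImplicit false
set_option maxRecDepth 100000

/-!
# Certificates for blocks of positive tangles
-/

namespace Pool.Agent.K7.H46.TW

def w1Ex_0 : CertW :=
  (.step 4 0 0 (.step 0 3 2 (.step 5 1 2 (.step 0 5 4 (.contra 6)))))

def w1Exd_0 : CertW :=
  (.step 5 0 0 (.step 0 2 3 (.step 4 1 2 (.step 0 4 5 (.contra 6)))))

def w1Ey_0 : CertW :=
  (.step 5 2 0 (.step 0 0 3 (.step 0 1 3 (.step 3 4 1 (.step 0 2 6 (.step 3 5 2 (.step 0 8 7 (.contra 9))))))))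

def w1Eyd_0 : CertW :=
  (.step 4 2 0 (.step 0 3 0 (.step 0 3 1 (.step 2 4 1 (.step 0 6 2 (.step 2 5 2 (.step 0 7 8 (.contra 9))))))))

theorem certs_E1 : Certs true 1 := by
  intro j hj
  interval_cases j
  · exact ⟨w1Ex_0, by decide +kernel⟩
  · exact ⟨w1Ey_0, by decide +kernel⟩
  · exact ⟨w1Exd_0, by decide +kernel⟩
  · exact ⟨w1Eyd_0, by decide +kernel⟩

def w1Cx_0 : CertW :=
  (.step 4 0 0 (.step 0 3 2 (.step 5 1 2 (.step 0 4 5 (.crule [0,1] 0 (.step 0 7 6 (.contra 8)))))))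

def w1Cxd_0 : CertW :=
  (.step 5 0 0 (.step 0 2 3 (.step 4 1 2 (.step 0 5 4 (.crule [0,1] 2 (.step 0 6 7 (.contra 8)))))))

def w1Cy_0 : CertW :=
  (.split [20] [0] (.step 3 7 2 (.step 0 8 2 (.step 4 9 1 (.step 0 10 4 (.crule [9,2] 4 (.step 0 12 11 (.contra 13))))))) (.step 0 7 5 (.step 2 7 2 (.split [12] [8] (.step 0 10 9 (.contra 11)) (.crule [2,10] 2 (.step 0 11 8 (.contra 12)))))))

def w1Cy_1 : CertW :=
  (.step 5 2 0 (.step 0 0 3 (.step 0 1 3 (.split [0] [20] (.step 0 6 5 (.step 2 6 2 (.split [12] [8] (.step 0 9 8 (.contra 10)) (.crule [2,9] 2 (.step 0 10 7 (.contra 11)))))) w1Cy_0))))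

def w1Cyd_0 : CertW :=
  (.split [0] [20] (.step 2 7 2 (.step 0 2 8 (.step 5 9 1 (.step 0 4 10 (.crule [9,2] 6 (.step 0 11 12 (.contra 13))))))) (.step 0 5 7 (.step 3 7 2 (.split [8] [12] (.step 0 9 10 (.contra 11)) (.crule [2,10] 0 (.step 0 8 11 (.contra 12)))))))

def w1Cyd_1 : CertW :=
  (.step 4 2 0 (.step 0 3 0 (.step 0 3 1 (.split [20] [0] (.step 0 5 6 (.step 3 6 2 (.split [8] [12] (.step 0 8 9 (.contra 10)) (.crule [2,9] 0 (.step 0 7 10 (.contra 11)))))) w1Cyd_0))))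

theorem certs_C1 : Certs false 1 := by
  intro j hj
  interval_cases j
  · exact ⟨w1Cx_0, by decide +kernel⟩
  · exact ⟨w1Cy_1, by decide +kernel⟩
  · exact ⟨w1Cxd_0, by decide +kernel⟩
  · exact ⟨w1Cyd_1, by decide +kernel⟩

def w2Ex_0 : CertW :=
  (.step 4 0 3 (.step 5 1 5 (.step 0 2 4 (.step 1 2 9 (.step 1 3 11 (.step 1 4 9 (.step 0 6 8 (.step 0 9 7 (.step 1 6 16 (.step 1 7 0 (.step 1 7 12 (.step 6 7 3 (.step 1 8 16 (.step 0 11 15 (.step 0 16 14 (.step 7 8 5 (.step 0 11 18 (.step 8 10 0 (.step 0 12 20 (.step 0 21 19 (.step 0 20 17 (.step 2 22 2 (.step 0 5 24 (.step 0 25 13 (.step 2 23 1 (.step 0 27 26 (.contra 28)))))))))))))))))))))))))))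

def w2Exd_0 : CertW :=
  (.step 5 0 3 (.step 4 1 5 (.step 0 4 2 (.step 1 2 9 (.step 1 3 11 (.step 1 4 9 (.step 0 8 6 (.step 0 7 9 (.step 1 6 16 (.step 1 7 0 (.step 1 7 12 (.step 7 7 3 (.step 1 8 16 (.step 0 15 11 (.step 0 14 16 (.step 6 8 5 (.step 0 18 11 (.step 9 10 0 (.step 0 20 12 (.step 0 19 21 (.step 0 17 20 (.step 3 22 2 (.step 0 24 5 (.step 0 13 25 (.step 3 23 1 (.step 0 26 27 (.contra 28)))))))))))))))))))))))))))

def w2Ey_0 : CertW :=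
  (.step 0 10 14 (.step 0 15 3 (.step 1 14 0 (.step 0 17 6 (.step 1 14 8 (.step 0 19 7 (.step 6 14 4 (.step 0 12 21 (.step 0 22 8 (.step 8 16 1 (.step 0 18 24 (.step 0 25 13 (.step 0 24 23 (.step 2 26 0 (.step 0 5 28 (.step 0 29 20 (.step 2 27 2 (.step 0 31 30 (.contra 32)))))))))))))))))))

def w2Ey_1 : CertW :=
  (.step 1 15 12 (.step 3 16 4 (.step 0 2 17 (.step 4 18 5 (.crule [18,17] 9 (.step 1 19 9 (.step 0 10 21 (.step 0 22 4 (.step 4 20 2 (.step 0 11 24 (.step 6 21 5 (.step 0 25 26 (.step 0 27 9 (.step 9 23 0 (.step 0 29 28 (.contra 30))))))))))))))))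

def w2Ey_2 : CertW :=
  (.step 0 10 15 (.step 0 16 3 (.step 1 15 0 (.step 0 18 6 (.step 1 15 8 (.step 0 20 7 (.step 6 15 4 (.step 0 12 22 (.step 0 23 8 (.step 8 17 1 (.step 0 19 25 (.step 0 26 13 (.step 0 25 24 (.step 2 27 0 (.step 0 5 29 (.step 0 30 21 (.step 2 28 2 (.step 0 32 31 (.contra 33)))))))))))))))))))

def w2Ey_3 : CertW :=
  (.split [13,26] [] w2Ey_1 w2Ey_2)

def w2Ey_4 : CertW :=
  (.step 1 0 13 (.step 1 1 9 (.step 5 2 3 (.step 1 3 0 (.step 1 3 8 (.step 1 3 20 (.step 1 4 16 (.step 1 5 11 (.step 1 10 0 (.step 1 10 18 (.step 7 10 3 (.split [] [13,26] w2Ey_0 w2Ey_3))))))))))))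

def w2Eyd_0 : CertW :=
  (.step 0 14 10 (.step 0 3 15 (.step 1 14 0 (.step 0 6 17 (.step 1 14 8 (.step 0 7 19 (.step 7 14 4 (.step 0 21 12 (.step 0 8 22 (.step 9 16 1 (.step 0 24 18 (.step 0 13 25 (.step 0 23 24 (.step 3 26 0 (.step 0 28 5 (.step 0 20 29 (.step 3 27 2 (.step 0 30 31 (.contra 32)))))))))))))))))))

def w2Eyd_1 : CertW :=
  (.step 1 15 12 (.step 2 16 4 (.step 0 17 2 (.step 5 18 5 (.crule [18,17] 11 (.step 1 19 9 (.step 0 21 10 (.step 0 4 22 (.step 5 20 2 (.step 0 24 11 (.step 7 21 5 (.step 0 26 25 (.step 0 9 27 (.step 8 23 0 (.step 0 28 29 (.contra 30))))))))))))))))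

def w2Eyd_2 : CertW :=
  (.step 0 15 10 (.step 0 3 16 (.step 1 15 0 (.step 0 6 18 (.step 1 15 8 (.step 0 7 20 (.step 7 15 4 (.step 0 22 12 (.step 0 8 23 (.step 9 17 1 (.step 0 25 19 (.step 0 13 26 (.step 0 24 25 (.step 3 27 0 (.step 0 29 5 (.step 0 21 30 (.step 3 28 2 (.step 0 31 32 (.contra 33)))))))))))))))))))

def w2Eyd_3 : CertW :=
  (.split [] [13,26] w2Eyd_1 w2Eyd_2)

def w2Eyd_4 : CertW :=
  (.step 1 0 13 (.step 1 1 9 (.step 4 2 3 (.step 1 3 0 (.step 1 3 8 (.step 1 3 20 (.step 1 4 16 (.step 1 5 11 (.step 1 10 0 (.step 1 10 18 (.step 6 10 3 (.split [13,26] [] w2Eyd_0 w2Eyd_3))))))))))))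

theorem certs_E2 : Certs true 2 := by
  intro j hj
  interval_cases j
  · exact ⟨w2Ex_0, by decide +kernel⟩
  · exact ⟨w2Ey_4, by decide +kernel⟩
  · exact ⟨w2Exd_0, by decide +kernel⟩
  · exact ⟨w2Eyd_4, by decide +kernel⟩

def w2Cx_0 : CertW :=
  (.split [12] [8] (.step 5 30 2 (.step 0 28 31 (.crule [8,29] 0 (.step 0 33 32 (.contra 34))))) (.step 0 14 30 (.step 0 31 12 (.step 5 32 1 (.step 0 27 33 (.crule [32,15] 6 (.step 0 35 34 (.contra 36))))))))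

def w2Cx_1 : CertW :=
  (.step 1 0 19 (.step 4 0 3 (.step 0 4 2 (.step 1 1 17 (.step 5 1 5 (.step 0 5 7 (.step 0 2 7 (.step 1 3 8 (.step 0 9 10 (.step 1 3 12 (.step 8 3 3 (.step 0 13 9 (.step 0 13 11 (.step 9 6 5 (.step 0 5 16 (.step 4 8 0 (.step 1 18 3 (.step 1 18 17 (.step 6 19 0 (.step 0 14 21 (.step 6 20 0 (.step 0 23 17 (.step 1 22 11 (.step 1 24 9 (.step 1 25 2 (.step 1 26 16 (.split [8] [12] (.step 0 14 29 (.step 0 30 12 (.step 5 31 1 (.step 0 27 32 (.crule [31,15] 6 (.step 0 34 33 (.contra 35))))))) w2Cx_0)))))))))))))))))))))))))))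

def w2Cxd_0 : CertW :=
  (.split [8] [12] (.step 4 30 2 (.step 0 31 28 (.crule [8,29] 2 (.step 0 32 33 (.contra 34))))) (.step 0 30 14 (.step 0 12 31 (.step 4 32 1 (.step 0 33 27 (.crule [32,15] 4 (.step 0 34 35 (.contra 36))))))))

def w2Cxd_1 : CertW :=
  (.step 1 0 19 (.step 5 0 3 (.step 0 2 4 (.step 1 1 17 (.step 4 1 5 (.step 0 7 5 (.step 0 7 2 (.step 1 3 8 (.step 0 10 9 (.step 1 3 12 (.step 9 3 3 (.step 0 9 13 (.step 0 11 13 (.step 8 6 5 (.step 0 16 5 (.step 5 8 0 (.step 1 18 3 (.step 1 18 17 (.step 7 19 0 (.step 0 21 14 (.step 7 20 0 (.step 0 17 23 (.step 1 22 11 (.step 1 24 9 (.step 1 25 2 (.step 1 26 16 (.split [12] [8] (.step 0 29 14 (.step 0 12 30 (.step 4 31 1 (.step 0 32 27 (.crule [31,15] 4 (.step 0 33 34 (.contra 35))))))) w2Cxd_0)))))))))))))))))))))))))))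

def w2Cy_0 : CertW :=
  (.step 0 28 21 (.step 1 25 20 (.step 0 17 30 (.step 4 27 4 (.step 1 28 13 (.step 0 33 25 (.crule [21,29] 0 (.step 0 35 24 (.step 1 32 13 (.step 9 34 2 (.step 0 31 38 (.step 0 39 36 (.step 6 37 4 (.step 0 41 40 (.contra 42)))))))))))))))

def w2Cy_1 : CertW :=
  (.step 0 26 2 (.split [12] [10] w2Cy_0 (.crule [28,21] 18 (.step 0 29 2 (.contra 30)))))

def w2Cy_2 : CertW :=
  (.step 1 18 9 (.step 1 19 2 (.step 1 19 10 (.step 8 19 0 (.step 0 20 22 (.step 0 23 2 (.step 1 21 13 (.split [20] [16] w2Cy_1 (.crule [2,26] 15 (.step 0 27 21 (.contra 28)))))))))))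

def w2Cy_3 : CertW :=
  (.step 4 30 2 (.crule [22,30] 2 (.step 0 24 32 (.step 0 33 31 (.step 0 29 32 (.step 0 35 31 (.step 4 34 5 (.step 10 36 5 (.step 1 37 9 (.step 0 39 38 (.contra 40)))))))))))

def w2Cy_4 : CertW :=
  (.step 0 31 22 (.step 1 31 11 (.step 0 33 20 (.step 5 31 2 (.step 4 32 1 (.crule [32,22] 4 (.step 0 26 37 (.crule [30,32] 10 (.step 0 35 39 (.step 0 40 36 (.step 8 34 1 (.step 0 38 42 (.step 4 41 4 (.step 1 43 19 (.step 0 3 45 (.step 1 44 11 (.step 0 47 46 (.contra 48))))))))))))))))))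

def w2Cy_5 : CertW :=
  (.step 4 31 2 (.crule [22,31] 2 (.step 0 24 33 (.step 0 34 32 (.step 0 29 33 (.step 0 36 32 (.step 4 35 5 (.step 10 37 5 (.step 1 38 9 (.step 0 40 39 (.contra 41)))))))))))

def w2Cy_6 : CertW :=
  (.split [12] [8] w2Cy_4 w2Cy_5)

def w2Cy_7 : CertW :=
  (.step 1 19 9 (.step 1 20 2 (.step 1 20 10 (.step 9 20 0 (.step 0 23 21 (.step 0 15 23 (.step 0 25 21 (.step 1 22 9 (.step 9 27 0 (.step 0 14 28 (.split [8] [12] w2Cy_3 w2Cy_6)))))))))))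

def w2Cy_8 : CertW :=
  (.step 3 24 5 (.step 0 32 2 (.step 1 31 11 (.crule [31,30] 4 (.step 0 29 35 (.step 4 33 4 (.step 8 34 1 (.step 0 36 38 (.step 1 37 11 (.step 0 40 3 (.step 1 39 19 (.step 0 42 41 (.contra 43)))))))))))))

def w2Cy_9 : CertW :=
  (.step 1 19 9 (.step 1 18 9 (.step 5 18 0 (.step 1 20 10 (.step 0 7 23 (.step 1 20 16 (.step 0 15 25 (.step 0 26 22 (.step 1 21 2 (.step 0 27 28 (.step 1 21 10 (.split [12] [10] w2Cy_8 (.crule [31,23] 18 (.step 0 32 2 (.contra 33)))))))))))))))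

def w2Cy_10 : CertW :=
  (.split [8,11,8] [8] w2Cy_7 w2Cy_9)

def w2Cy_11 : CertW :=
  (.step 1 0 11 (.step 1 0 13 (.step 1 1 9 (.step 5 2 3 (.step 0 1 6 (.step 1 4 20 (.step 1 5 16 (.step 1 6 9 (.step 1 6 11 (.step 1 6 13 (.step 1 10 16 (.step 0 9 13 (.step 7 11 3 (.step 1 12 20 (.step 0 8 16 (.split [8] [8,11,8] w2Cy_2 w2Cy_10))))))))))))))))

def w2Cyd_0 : CertW :=
  (.step 0 21 28 (.step 1 25 20 (.step 0 30 17 (.step 5 27 4 (.step 1 28 13 (.step 0 25 33 (.crule [21,29] 2 (.step 0 24 35 (.step 1 32 13 (.step 8 34 2 (.step 0 38 31 (.step 0 36 39 (.step 7 37 4 (.step 0 40 41 (.contra 42)))))))))))))))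

def w2Cyd_1 : CertW :=
  (.step 0 2 26 (.split [10] [12] w2Cyd_0 (.crule [28,21] 16 (.step 0 2 29 (.contra 30)))))

def w2Cyd_2 : CertW :=
  (.step 1 18 9 (.step 1 19 2 (.step 1 19 10 (.step 9 19 0 (.step 0 22 20 (.step 0 2 23 (.step 1 21 13 (.split [16] [20] w2Cyd_1 (.crule [2,26] 13 (.step 0 21 27 (.contra 28)))))))))))

def w2Cyd_3 : CertW :=
  (.step 5 30 2 (.crule [22,30] 0 (.step 0 32 24 (.step 0 31 33 (.step 0 32 29 (.step 0 31 35 (.step 5 34 5 (.step 11 36 5 (.step 1 37 9 (.step 0 38 39 (.contra 40)))))))))))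

def w2Cyd_4 : CertW :=
  (.step 0 22 31 (.step 1 31 11 (.step 0 20 33 (.step 4 31 2 (.step 5 32 1 (.crule [32,22] 6 (.step 0 37 26 (.crule [30,32] 8 (.step 0 39 35 (.step 0 36 40 (.step 9 34 1 (.step 0 42 38 (.step 5 41 4 (.step 1 43 19 (.step 0 45 3 (.step 1 44 11 (.step 0 46 47 (.contra 48))))))))))))))))))

def w2Cyd_5 : CertW :=
  (.step 5 31 2 (.crule [22,31] 0 (.step 0 33 24 (.step 0 32 34 (.step 0 33 29 (.step 0 32 36 (.step 5 35 5 (.step 11 37 5 (.step 1 38 9 (.step 0 39 40 (.contra 41)))))))))))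

def w2Cyd_6 : CertW :=
  (.split [8] [12] w2Cyd_4 w2Cyd_5)

def w2Cyd_7 : CertW :=
  (.step 1 19 9 (.step 1 20 2 (.step 1 20 10 (.step 8 20 0 (.step 0 21 23 (.step 0 23 15 (.step 0 21 25 (.step 1 22 9 (.step 8 27 0 (.step 0 28 14 (.split [12] [8] w2Cyd_3 w2Cyd_6)))))))))))

def w2Cyd_8 : CertW :=
  (.step 2 24 5 (.step 0 2 32 (.step 1 31 11 (.crule [31,30] 6 (.step 0 35 29 (.step 5 33 4 (.step 9 34 1 (.step 0 38 36 (.step 1 37 11 (.step 0 3 40 (.step 1 39 19 (.step 0 41 42 (.contra 43)))))))))))))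

def w2Cyd_9 : CertW :=
  (.step 1 19 9 (.step 1 18 9 (.step 4 18 0 (.step 1 20 10 (.step 0 23 7 (.step 1 20 16 (.step 0 25 15 (.step 0 22 26 (.step 1 21 2 (.step 0 28 27 (.step 1 21 10 (.split [10] [12] w2Cyd_8 (.crule [31,23] 16 (.step 0 2 32 (.contra 33)))))))))))))))

def w2Cyd_10 : CertW :=
  (.split [8] [8,11,8] w2Cyd_7 w2Cyd_9)

def w2Cyd_11 : CertW :=
  (.step 1 0 11 (.step 1 0 13 (.step 1 1 9 (.step 4 2 3 (.step 0 6 1 (.step 1 4 20 (.step 1 5 16 (.step 1 6 9 (.step 1 6 11 (.step 1 6 13 (.step 1 10 16 (.step 0 13 9 (.step 6 11 3 (.step 1 12 20 (.step 0 16 8 (.split [8,11,8] [8] w2Cyd_2 w2Cyd_10))))))))))))))))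

theorem certs_C2 : Certs false 2 := by
  intro j hj
  interval_cases j
  · exact ⟨w2Cx_1, by decide +kernel⟩
  · exact ⟨w2Cy_11, by decide +kernel⟩
  · exact ⟨w2Cxd_1, by decide +kernel⟩
  · exact ⟨w2Cyd_11, by decide +kernel⟩

def w3Ex_0 : CertW :=
  (.step 1 46 27 (.step 1 47 12 (.step 2 48 4 (.step 0 13 49 (.step 0 50 15 (.step 0 49 17 (.step 5 51 5 (.crule [52,49] 11 (.step 1 53 9 (.step 0 55 38 (.step 5 54 2 (.step 0 13 57 (.step 0 58 40 (.step 7 55 5 (.step 0 60 59 (.step 8 56 0 (.step 0 62 61 (.contra 63))))))))))))))))))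

def w3Ex_1 : CertW :=
  (.step 1 47 27 (.step 0 48 37 (.step 0 48 39 (.step 1 48 0 (.step 0 51 40 (.step 7 48 4 (.step 0 53 33 (.step 9 49 1 (.step 0 32 55 (.step 0 56 52 (.step 0 54 55 (.step 0 54 55 (.step 0 59 52 (.step 3 58 2 (.step 1 61 9 (.step 0 44 62 (.step 0 63 50 (.step 1 62 20 (.step 0 45 65 (.step 0 66 60 (.step 8 64 0 (.step 0 57 68 (.step 0 67 68 (.step 1 69 17 (.step 5 70 5 (.step 1 71 28 (.step 0 73 72 (.contra 74))))))))))))))))))))))))))))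

def w3Ex_2 : CertW :=
  (.step 1 47 27 (.step 2 47 4 (.step 1 46 27 (.step 0 50 37 (.step 1 48 20 (.step 0 13 52 (.step 0 53 49 (.step 1 50 0 (.step 0 55 40 (.step 1 50 18 (.step 0 54 57 (.step 0 58 15 (.step 9 51 1 (.step 0 32 60 (.step 0 61 56 (.step 5 59 5 (.step 1 63 9 (.step 0 64 38 (.step 1 64 16 (.step 0 66 62 (.step 8 65 0 (.step 0 68 67 (.contra 69)))))))))))))))))))))))

def w3Ex_3 : CertW :=
  (.split [26,13,24] [24] w3Ex_1 w3Ex_2)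

def w3Ex_4 : CertW :=
  (.step 1 41 25 (.step 1 42 28 (.step 1 43 9 (.step 1 44 20 (.split [24] [26,13,24] w3Ex_0 w3Ex_3)))))

def w3Ex_5 : CertW :=
  (.step 1 41 25 (.step 1 42 20 (.step 0 43 13 (.step 1 42 26 (.step 0 45 0 (.crule [41,46] 21 (.step 0 26 47 (.step 0 48 43 (.step 0 26 47 (.step 0 50 44 (.step 4 47 5 (.step 0 24 52 (.step 5 51 4 (.step 1 54 13 (.step 0 55 37 (.step 7 55 4 (.step 0 57 49 (.step 0 57 33 (.step 9 56 1 (.step 0 59 60 (.step 1 58 21 (.step 3 61 2 (.step 0 53 63 (.step 1 62 8 (.step 0 65 64 (.contra 66))))))))))))))))))))))))))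

def w3Ex_6 : CertW :=
  (.step 1 0 27 (.step 4 0 6 (.step 0 4 2 (.step 1 1 25 (.step 1 1 29 (.step 5 1 8 (.step 0 5 8 (.step 0 2 8 (.step 1 3 16 (.step 0 10 11 (.step 1 3 20 (.step 8 3 6 (.step 0 14 10 (.step 0 14 2 (.step 0 14 12 (.step 1 6 18 (.step 0 18 5 (.step 9 6 8 (.step 0 5 20 (.step 0 16 20 (.step 0 19 20 (.step 1 7 8 (.step 1 7 16 (.step 0 15 25 (.step 1 7 24 (.step 4 9 3 (.step 4 23 3 (.step 1 28 11 (.step 1 29 11 (.step 6 30 3 (.step 0 15 32 (.step 6 31 3 (.step 0 21 34 (.step 0 22 34 (.step 1 33 19 (.step 1 35 19 (.step 1 36 19 (.step 1 39 0 (.split [24] [24,29,24] w3Ex_4 w3Ex_5)))))))))))))))))))))))))))))))))))))))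

def w3Exd_0 : CertW :=
  (.step 1 46 27 (.step 1 47 12 (.step 3 48 4 (.step 0 49 13 (.step 0 15 50 (.step 0 17 49 (.step 4 51 5 (.crule [52,49] 9 (.step 1 53 9 (.step 0 38 55 (.step 4 54 2 (.step 0 57 13 (.step 0 40 58 (.step 6 55 5 (.step 0 59 60 (.step 9 56 0 (.step 0 61 62 (.contra 63))))))))))))))))))

def w3Exd_1 : CertW :=
  (.step 1 47 27 (.step 0 37 48 (.step 0 39 48 (.step 1 48 0 (.step 0 40 51 (.step 6 48 4 (.step 0 33 53 (.step 8 49 1 (.step 0 55 32 (.step 0 52 56 (.step 0 55 54 (.step 0 55 54 (.step 0 52 59 (.step 2 58 2 (.step 1 61 9 (.step 0 62 44 (.step 0 50 63 (.step 1 62 20 (.step 0 65 45 (.step 0 60 66 (.step 9 64 0 (.step 0 68 57 (.step 0 68 67 (.step 1 69 17 (.step 4 70 5 (.step 1 71 28 (.step 0 72 73 (.contra 74))))))))))))))))))))))))))))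

def w3Exd_2 : CertW :=
  (.step 1 47 27 (.step 3 47 4 (.step 1 46 27 (.step 0 37 50 (.step 1 48 20 (.step 0 52 13 (.step 0 49 53 (.step 1 50 0 (.step 0 40 55 (.step 1 50 18 (.step 0 57 54 (.step 0 15 58 (.step 8 51 1 (.step 0 60 32 (.step 0 56 61 (.step 4 59 5 (.step 1 63 9 (.step 0 38 64 (.step 1 64 16 (.step 0 62 66 (.step 9 65 0 (.step 0 67 68 (.contra 69)))))))))))))))))))))))

def w3Exd_3 : CertW :=
  (.split [24] [26,13,24] w3Exd_1 w3Exd_2)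

def w3Exd_4 : CertW :=
  (.step 1 41 25 (.step 1 42 28 (.step 1 43 9 (.step 1 44 20 (.split [26,13,24] [24] w3Exd_0 w3Exd_3)))))

def w3Exd_5 : CertW :=
  (.step 1 41 25 (.step 1 42 20 (.step 0 13 43 (.step 1 42 26 (.step 0 0 45 (.crule [41,46] 23 (.step 0 47 26 (.step 0 43 48 (.step 0 47 26 (.step 0 44 50 (.step 5 47 5 (.step 0 52 24 (.step 4 51 4 (.step 1 54 13 (.step 0 37 55 (.step 6 55 4 (.step 0 49 57 (.step 0 33 57 (.step 8 56 1 (.step 0 60 59 (.step 1 58 21 (.step 2 61 2 (.step 0 63 53 (.step 1 62 8 (.step 0 64 65 (.contra 66))))))))))))))))))))))))))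

def w3Exd_6 : CertW :=
  (.step 1 0 27 (.step 5 0 6 (.step 0 2 4 (.step 1 1 25 (.step 1 1 29 (.step 4 1 8 (.step 0 8 5 (.step 0 8 2 (.step 1 3 16 (.step 0 11 10 (.step 1 3 20 (.step 9 3 6 (.step 0 10 14 (.step 0 2 14 (.step 0 12 14 (.step 1 6 18 (.step 0 5 18 (.step 8 6 8 (.step 0 20 5 (.step 0 20 16 (.step 0 20 19 (.step 1 7 8 (.step 1 7 16 (.step 0 25 15 (.step 1 7 24 (.step 5 9 3 (.step 5 23 3 (.step 1 28 11 (.step 1 29 11 (.step 7 30 3 (.step 0 32 15 (.step 7 31 3 (.step 0 34 21 (.step 0 34 22 (.step 1 33 19 (.step 1 35 19 (.step 1 36 19 (.step 1 39 0 (.split [24,29,24] [24] w3Exd_4 w3Exd_5)))))))))))))))))))))))))))))))))))))))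

def w3Ey_0 : CertW :=
  (.step 5 74 3 (.step 1 76 25 (.step 1 77 18 (.step 0 73 78 (.step 0 79 47 (.step 7 77 3 (.step 0 75 81 (.step 0 82 60 (.step 5 83 5 (.step 0 67 84 (.step 1 85 9 (.step 0 86 3 (.step 1 86 0 (.step 0 88 80 (.step 9 87 2 (.step 0 90 89 (.contra 91)))))))))))))))))

def w3Ey_1 : CertW :=
  (.step 1 15 25 (.step 0 16 5 (.step 1 16 18 (.step 0 7 18 (.step 1 16 20 (.step 0 20 14 (.step 0 10 20 (.step 0 22 14 (.step 1 16 26 (.step 0 2 24 (.step 8 17 7 (.step 0 21 26 (.step 0 27 7 (.step 0 21 26 (.step 0 29 12 (.step 0 23 26 (.step 0 31 12 (.step 0 14 26 (.step 0 33 12 (.step 0 14 26 (.step 0 35 19 (.step 0 26 12 (.crule [15,25] 23 (.step 4 28 4 (.step 4 32 4 (.step 5 38 5 (.crule [38,36] 11 (.step 1 39 13 (.step 1 40 13 (.step 1 41 9 (.step 5 42 2 (.step 6 43 4 (.step 6 44 4 (.step 0 30 48 (.step 0 34 48 (.step 0 37 48 (.step 1 45 0 (.step 7 45 5 (.step 0 53 50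 (.step 0 53 46 (.step 1 49 21 (.step 1 50 21 (.step 0 45 57 (.step 1 51 21 (.step 1 56 16 (.step 1 57 0 (.step 0 52 61 (.step 0 55 61 (.step 9 58 2 (.step 0 54 64 (.step 0 64 62 (.step 1 59 28 (.step 3 65 0 (.step 1 68 11 (.step 0 69 58 (.step 1 69 16 (.step 0 71 63 (.step 8 70 1 (.step 0 72 73 (.step 0 66 73 w3Ey_0))))))))))))))))))))))))))))))))))))))))))))))))))))))))))))

def w3Ey_2 : CertW :=
  (.step 1 49 27 (.step 0 42 50 (.step 0 47 50 (.step 1 50 0 (.step 0 48 53 (.step 6 50 4 (.step 0 40 55 (.step 8 51 1 (.step 0 57 56 (.step 0 54 57 (.step 0 59 39 (.step 0 54 57 (.step 0 61 56 (.step 2 58 2 (.step 1 63 9 (.step 0 52 64 (.step 0 65 27 (.step 1 64 20 (.step 0 62 67 (.step 0 68 30 (.step 9 66 0 (.step 0 70 60 (.step 0 70 69 (.step 1 71 17 (.step 4 72 5 (.step 1 73 28 (.step 0 75 74 (.contra 76))))))))))))))))))))))))))))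

def w3Ey_3 : CertW :=
  (.step 1 50 27 (.step 1 51 12 (.step 3 52 4 (.step 0 24 53 (.step 0 54 10 (.step 0 26 53 (.step 4 55 5 (.crule [56,53] 9 (.step 1 57 9 (.step 0 46 59 (.step 4 58 2 (.step 0 48 61 (.step 0 62 10 (.step 6 59 5 (.step 0 63 64 (.step 9 60 0 (.step 0 66 65 (.contra 67))))))))))))))))))

def w3Ey_4 : CertW :=
  (.step 1 50 27 (.step 0 42 51 (.step 0 47 51 (.step 1 49 27 (.step 3 49 4 (.step 1 51 0 (.step 0 48 56 (.step 1 51 18 (.step 0 24 58 (.step 0 59 55 (.step 0 40 58 (.step 0 61 55 (.step 8 52 1 (.step 0 63 62 (.step 0 57 63 (.step 0 65 39 (.step 1 54 20 (.step 0 60 67 (.step 0 68 10 (.step 2 64 2 (.step 4 69 5 (.step 1 70 9 (.step 0 53 72 (.step 0 73 27 (.step 1 71 9 (.step 9 74 0 (.step 0 76 66 (.step 1 75 16 (.step 0 78 77 (.contra 79))))))))))))))))))))))))))))))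

def w3Ey_5 : CertW :=
  (.split [26,13,24] [24] w3Ey_3 w3Ey_4)

def w3Ey_6 : CertW :=
  (.step 1 16 25 (.step 1 17 28 (.step 1 17 36 (.step 0 19 8 (.step 0 19 13 (.step 8 17 8 (.step 0 22 20 (.step 0 22 21 (.step 0 9 22 (.step 0 25 21 (.step 1 18 9 (.step 1 18 25 (.step 5 23 3 (.step 1 27 20 (.step 1 28 18 (.step 0 8 31 (.step 8 28 8 (.step 0 33 8 (.step 0 33 13 (.step 0 33 32 (.step 1 29 11 (.step 5 36 3 (.step 7 37 3 (.step 0 39 24 (.step 1 38 11 (.step 1 40 19 (.step 7 41 3 (.step 0 43 34 (.step 0 43 35 (.step 1 44 19 (.step 1 45 19 (.step 1 47 0 (.split [24] [26,13,24] w3Ey_2 w3Ey_5)))))))))))))))))))))))))))))))))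

def w3Ey_7 : CertW :=
  (.step 1 16 25 (.step 0 17 5 (.step 1 15 25 (.step 4 15 8 (.step 1 17 16 (.step 0 21 20 (.step 1 17 20 (.step 0 23 14 (.step 0 10 23 (.step 0 25 14 (.step 1 17 26 (.step 0 2 27 (.step 8 18 7 (.step 0 24 29 (.step 0 30 12 (.step 0 26 29 (.step 0 32 12 (.step 1 19 0 (.step 1 19 36 (.step 0 22 35 (.step 0 36 8 (.step 0 22 35 (.step 0 38 13 (.crule [16,28] 23 (.step 4 33 4 (.step 5 37 3 (.step 5 40 5 (.step 1 41 13 (.step 1 42 11 (.step 1 43 9 (.step 0 46 19 (.step 6 44 4 (.step 0 39 48 (.step 0 31 48 (.step 7 45 3 (.step 0 51 49 (.step 1 46 0 (.step 0 53 34 (.step 1 50 21 (.step 0 47 55 (.step 0 45 55 (.step 1 55 0 (.step 0 54 58 (.step 9 56 2 (.step 0 52 60 (.step 0 61 59 (.step 8 57 1 (.step 0 63 62 (.contra 64)))))))))))))))))))))))))))))))))))))))))))))))))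

def w3Ey_8 : CertW :=
  (.split [24,29,24] [24] w3Ey_6 w3Ey_7)

def w3Ey_9 : CertW :=
  (.step 1 2 13 (.step 1 2 27 (.step 1 2 29 (.step 5 2 6 (.step 0 0 6 (.step 0 1 6 (.step 1 4 16 (.step 1 4 20 (.step 9 4 6 (.step 0 0 11 (.step 0 1 11 (.step 1 5 20 (.split [24] [24,29,24] w3Ey_1 w3Ey_8)))))))))))))

def w3Eyd_0 : CertW :=
  (.step 4 74 3 (.step 1 76 25 (.step 1 77 18 (.step 0 78 73 (.step 0 47 79 (.step 6 77 3 (.step 0 81 75 (.step 0 60 82 (.step 4 83 5 (.step 0 84 67 (.step 1 85 9 (.step 0 3 86 (.step 1 86 0 (.step 0 80 88 (.step 8 87 2 (.step 0 89 90 (.contra 91)))))))))))))))))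

def w3Eyd_1 : CertW :=
  (.step 1 15 25 (.step 0 5 16 (.step 1 16 18 (.step 0 18 7 (.step 1 16 20 (.step 0 14 20 (.step 0 20 10 (.step 0 14 22 (.step 1 16 26 (.step 0 24 2 (.step 9 17 7 (.step 0 26 21 (.step 0 7 27 (.step 0 26 21 (.step 0 12 29 (.step 0 26 23 (.step 0 12 31 (.step 0 26 14 (.step 0 12 33 (.step 0 26 14 (.step 0 19 35 (.step 0 12 26 (.crule [15,25] 21 (.step 5 28 4 (.step 5 32 4 (.step 4 38 5 (.crule [38,36] 9 (.step 1 39 13 (.step 1 40 13 (.step 1 41 9 (.step 4 42 2 (.step 7 43 4 (.step 7 44 4 (.step 0 48 30 (.step 0 48 34 (.step 0 48 37 (.step 1 45 0 (.step 6 45 5 (.step 0 50 53 (.step 0 46 53 (.step 1 49 21 (.step 1 50 21 (.step 0 57 45 (.step 1 51 21 (.step 1 56 16 (.step 1 57 0 (.step 0 61 52 (.step 0 61 55 (.step 8 58 2 (.step 0 64 54 (.step 0 62 64 (.step 1 59 28 (.step 2 65 0 (.step 1 68 11 (.step 0 58 69 (.step 1 69 16 (.step 0 63 71 (.step 9 70 1 (.step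 0 73 72 (.step 0 73 66 w3Eyd_0))))))))))))))))))))))))))))))))))))))))))))))))))))))))))))

def w3Eyd_2 : CertW :=
  (.step 1 49 27 (.step 0 50 42 (.step 0 50 47 (.step 1 50 0 (.step 0 53 48 (.step 7 50 4 (.step 0 55 40 (.step 9 51 1 (.step 0 56 57 (.step 0 57 54 (.step 0 39 59 (.step 0 57 54 (.step 0 56 61 (.step 3 58 2 (.step 1 63 9 (.step 0 64 52 (.step 0 27 65 (.step 1 64 20 (.step 0 67 62 (.step 0 30 68 (.step 8 66 0 (.step 0 60 70 (.step 0 69 70 (.step 1 71 17 (.step 5 72 5 (.step 1 73 28 (.step 0 74 75 (.contra 76))))))))))))))))))))))))))))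

def w3Eyd_3 : CertW :=
  (.step 1 50 27 (.step 1 51 12 (.step 2 52 4 (.step 0 53 24 (.step 0 10 54 (.step 0 53 26 (.step 5 55 5 (.crule [56,53] 11 (.step 1 57 9 (.step 0 59 46 (.step 5 58 2 (.step 0 61 48 (.step 0 10 62 (.step 7 59 5 (.step 0 64 63 (.step 8 60 0 (.step 0 65 66 (.contra 67))))))))))))))))))

def w3Eyd_4 : CertW :=
  (.step 1 50 27 (.step 0 51 42 (.step 0 51 47 (.step 1 49 27 (.step 2 49 4 (.step 1 51 0 (.step 0 56 48 (.step 1 51 18 (.step 0 58 24 (.step 0 55 59 (.step 0 58 40 (.step 0 55 61 (.step 9 52 1 (.step 0 62 63 (.step 0 63 57 (.step 0 39 65 (.step 1 54 20 (.step 0 67 60 (.step 0 10 68 (.step 3 64 2 (.step 5 69 5 (.step 1 70 9 (.step 0 72 53 (.step 0 27 73 (.step 1 71 9 (.step 8 74 0 (.step 0 66 76 (.step 1 75 16 (.step 0 77 78 (.contra 79))))))))))))))))))))))))))))))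

def w3Eyd_5 : CertW :=
  (.split [24] [26,13,24] w3Eyd_3 w3Eyd_4)

def w3Eyd_6 : CertW :=
  (.step 1 16 25 (.step 1 17 28 (.step 1 17 36 (.step 0 8 19 (.step 0 13 19 (.step 9 17 8 (.step 0 20 22 (.step 0 21 22 (.step 0 22 9 (.step 0 21 25 (.step 1 18 9 (.step 1 18 25 (.step 4 23 3 (.step 1 27 20 (.step 1 28 18 (.step 0 31 8 (.step 9 28 8 (.step 0 8 33 (.step 0 13 33 (.step 0 32 33 (.step 1 29 11 (.step 4 36 3 (.step 6 37 3 (.step 0 24 39 (.step 1 38 11 (.step 1 40 19 (.step 6 41 3 (.step 0 34 43 (.step 0 35 43 (.step 1 44 19 (.step 1 45 19 (.step 1 47 0 (.split [26,13,24] [24] w3Eyd_2 w3Eyd_5)))))))))))))))))))))))))))))))))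

def w3Eyd_7 : CertW :=
  (.step 1 16 25 (.step 0 5 17 (.step 1 15 25 (.step 5 15 8 (.step 1 17 16 (.step 0 20 21 (.step 1 17 20 (.step 0 14 23 (.step 0 23 10 (.step 0 14 25 (.step 1 17 26 (.step 0 27 2 (.step 9 18 7 (.step 0 29 24 (.step 0 12 30 (.step 0 29 26 (.step 0 12 32 (.step 1 19 0 (.step 1 19 36 (.step 0 35 22 (.step 0 8 36 (.step 0 35 22 (.step 0 13 38 (.crule [16,28] 21 (.step 5 33 4 (.step 4 37 3 (.step 4 40 5 (.step 1 41 13 (.step 1 42 11 (.step 1 43 9 (.step 0 19 46 (.step 7 44 4 (.step 0 48 39 (.step 0 48 31 (.step 6 45 3 (.step 0 49 51 (.step 1 46 0 (.step 0 34 53 (.step 1 50 21 (.step 0 55 47 (.step 0 55 45 (.step 1 55 0 (.step 0 58 54 (.step 8 56 2 (.step 0 60 52 (.step 0 59 61 (.step 9 57 1 (.step 0 62 63 (.contra 64)))))))))))))))))))))))))))))))))))))))))))))))))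

def w3Eyd_8 : CertW :=
  (.split [24] [24,29,24] w3Eyd_6 w3Eyd_7)

def w3Eyd_9 : CertW :=
  (.step 1 2 13 (.step 1 2 27 (.step 1 2 29 (.step 4 2 6 (.step 0 6 0 (.step 0 6 1 (.step 1 4 16 (.step 1 4 20 (.step 8 4 6 (.step 0 11 0 (.step 0 11 1 (.step 1 5 20 (.split [24,29,24] [24] w3Eyd_1 w3Eyd_8)))))))))))))

theorem certs_E3 : Certs true 3 := by
  intro j hj
  interval_cases j
  · exact ⟨w3Ex_6, by decide +kernel⟩
  · exact ⟨w3Ey_9, by decide +kernel⟩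
  · exact ⟨w3Exd_6, by decide +kernel⟩
  · exact ⟨w3Eyd_9, by decide +kernel⟩

def w3Cx_0 : CertW :=
  (.step 1 51 8 (.step 1 51 16 (.step 0 53 43 (.step 8 51 5 (.step 0 52 55 (.step 0 56 47 (.step 1 53 21 (.step 0 58 18 (.step 5 54 4 (.step 0 49 60 (.step 1 58 8 (.step 0 62 57 (.step 1 58 10 (.step 0 64 45 (.step 9 59 4 (.step 0 49 66 (.step 0 63 66 (.step 0 65 66 (.step 5 61 1 (.step 4 68 2 (.crule [68,69] 8 (.step 0 72 71 (.step 1 70 5 (.step 1 73 5 (.step 7 74 1 (.step 0 76 67 (.step 1 75 12 (.step 0 78 77 (.contra 79)))))))))))))))))))))))))))))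

def w3Cx_1 : CertW :=
  (.step 0 65 79 (.step 5 80 1 (.step 0 3 81 (.crule [80,65] 6 (.step 0 25 83 (.step 0 84 76 (.step 0 82 83 (.step 0 86 77 (.step 0 81 83 (.step 0 88 77 (.step 1 85 19 (.step 1 87 19 (.crule [87,6] 19 (.step 1 89 19 (.step 1 90 10 (.step 0 94 50 (.step 9 91 4 (.step 5 92 1 (.step 1 93 26 (.step 0 95 98 (.step 0 99 96 (.step 1 97 19 (.step 11 100 1 (.step 0 102 101 (.contra 103)))))))))))))))))))))))))

def w3Cx_2 : CertW :=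
  (.split [12,19,32] [8,19,32] (.step 5 80 2 (.step 0 78 81 (.crule [65,79] 0 (.step 0 83 82 (.contra 84))))) (.step 5 79 2 (.step 0 78 81 (.crule [65,79] 0 (.step 0 83 82 (.contra 84))))))

def w3Cx_3 : CertW :=
  (.step 1 52 8 (.step 0 53 26 (.step 1 52 10 (.step 0 55 39 (.step 9 52 5 (.step 0 39 57 (.step 0 58 53 (.step 0 56 57 (.step 0 41 57 (.step 0 61 53 (.step 0 41 57 (.step 0 41 57 (.step 0 64 54 (.step 4 59 0 (.step 4 60 0 (.step 1 66 3 (.step 1 67 3 (.step 6 68 0 (.step 0 62 70 (.step 6 69 0 (.step 0 63 72 (.step 1 71 11 (.step 1 73 11 (.step 1 74 2 (.step 1 75 2 (.step 0 77 27 (.split [8,19,32] [12,19,32] w3Cx_1 w3Cx_2)))))))))))))))))))))))))))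

def w3Cx_4 : CertW :=
  (.step 1 52 16 (.step 0 53 43 (.step 0 6 53 (.step 1 51 8 (.step 9 51 5 (.step 0 39 57 (.step 0 58 56 (.step 1 53 19 (.step 0 18 60 (.step 5 54 4 (.step 0 49 62 (.crule [55,6] 19 (.step 4 59 0 (.step 1 60 26 (.step 0 49 66 (.step 9 61 4 (.step 0 67 68 (.step 5 63 1 (.crule [64,59] 6 (.step 1 65 5 (.step 1 70 5 (.step 1 71 5 (.step 1 72 12 (.step 7 73 1 (.step 0 75 76 (.step 0 77 69 (.step 1 74 12 (.step 0 79 78 (.contra 80)))))))))))))))))))))))))))))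

def w3Cx_5 : CertW :=
  (.split [17,20] [] w3Cx_3 w3Cx_4)

def w3Cx_6 : CertW :=
  (.step 4 0 6 (.step 0 3 2 (.step 5 1 8 (.step 0 4 5 (.step 1 2 17 (.step 1 2 19 (.step 1 3 17 (.step 0 9 7 (.step 1 3 19 (.step 0 11 8 (.step 1 5 17 (.step 0 10 13 (.step 0 7 13 (.step 0 15 11 (.step 1 5 19 (.step 0 12 17 (.step 4 6 3 (.step 1 7 24 (.step 1 8 20 (.step 1 8 26 (.step 1 9 24 (.step 0 23 20 (.step 1 11 4 (.step 1 11 8 (.step 1 11 20 (.step 0 27 21 (.step 6 11 6 (.step 0 19 29 (.step 0 30 22 (.step 0 29 22 (.step 0 1 29 (.step 0 33 22 (.step 7 13 8 (.step 0 24 35 (.step 0 20 35 (.step 8 14 3 (.step 0 38 36 (.step 8 16 3 (.step 0 40 37 (.step 1 17 20 (.step 0 28 42 (.step 1 17 26 (.step 0 31 44 (.step 0 32 44 (.step 0 34 44 (.step 8 18 3 (.step 0 48 46 (.step 0 48 29 (.split [] [17,20] w3Cx_0 w3Cx_5)))))))))))))))))))))))))))))))))))))))))))))))))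

def w3Cxd_0 : CertW :=
  (.step 1 51 8 (.step 1 51 16 (.step 0 43 53 (.step 9 51 5 (.step 0 55 52 (.step 0 47 56 (.step 1 53 21 (.step 0 18 58 (.step 4 54 4 (.step 0 60 49 (.step 1 58 8 (.step 0 57 62 (.step 1 58 10 (.step 0 45 64 (.step 8 59 4 (.step 0 66 49 (.step 0 66 63 (.step 0 66 65 (.step 4 61 1 (.step 5 68 2 (.crule [68,69] 10 (.step 0 71 72 (.step 1 70 5 (.step 1 73 5 (.step 6 74 1 (.step 0 67 76 (.step 1 75 12 (.step 0 77 78 (.contra 79)))))))))))))))))))))))))))))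

def w3Cxd_1 : CertW :=
  (.step 0 79 65 (.step 4 80 1 (.step 0 81 3 (.crule [80,65] 4 (.step 0 83 25 (.step 0 76 84 (.step 0 83 82 (.step 0 77 86 (.step 0 83 81 (.step 0 77 88 (.step 1 85 19 (.step 1 87 19 (.crule [87,6] 17 (.step 1 89 19 (.step 1 90 10 (.step 0 50 94 (.step 8 91 4 (.step 4 92 1 (.step 1 93 26 (.step 0 98 95 (.step 0 96 99 (.step 1 97 19 (.step 10 100 1 (.step 0 101 102 (.contra 103)))))))))))))))))))))))))

def w3Cxd_2 : CertW :=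
  (.split [8,19,32] [12,19,32] (.step 4 80 2 (.step 0 81 78 (.crule [65,79] 2 (.step 0 82 83 (.contra 84))))) (.step 4 79 2 (.step 0 81 78 (.crule [65,79] 2 (.step 0 82 83 (.contra 84))))))

def w3Cxd_3 : CertW :=
  (.step 1 52 8 (.step 0 26 53 (.step 1 52 10 (.step 0 39 55 (.step 8 52 5 (.step 0 57 39 (.step 0 53 58 (.step 0 57 56 (.step 0 57 41 (.step 0 53 61 (.step 0 57 41 (.step 0 57 41 (.step 0 54 64 (.step 5 59 0 (.step 5 60 0 (.step 1 66 3 (.step 1 67 3 (.step 7 68 0 (.step 0 70 62 (.step 7 69 0 (.step 0 72 63 (.step 1 71 11 (.step 1 73 11 (.step 1 74 2 (.step 1 75 2 (.step 0 27 77 (.split [12,19,32] [8,19,32] w3Cxd_1 w3Cxd_2)))))))))))))))))))))))))))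

def w3Cxd_4 : CertW :=
  (.step 1 52 16 (.step 0 43 53 (.step 0 53 6 (.step 1 51 8 (.step 8 51 5 (.step 0 57 39 (.step 0 56 58 (.step 1 53 19 (.step 0 60 18 (.step 4 54 4 (.step 0 62 49 (.crule [55,6] 17 (.step 5 59 0 (.step 1 60 26 (.step 0 66 49 (.step 8 61 4 (.step 0 68 67 (.step 4 63 1 (.crule [64,59] 4 (.step 1 65 5 (.step 1 70 5 (.step 1 71 5 (.step 1 72 12 (.step 6 73 1 (.step 0 76 75 (.step 0 69 77 (.step 1 74 12 (.step 0 78 79 (.contra 80)))))))))))))))))))))))))))))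

def w3Cxd_5 : CertW :=
  (.split [] [17,20] w3Cxd_3 w3Cxd_4)

def w3Cxd_6 : CertW :=
  (.step 5 0 6 (.step 0 2 3 (.step 4 1 8 (.step 0 5 4 (.step 1 2 17 (.step 1 2 19 (.step 1 3 17 (.step 0 7 9 (.step 1 3 19 (.step 0 8 11 (.step 1 5 17 (.step 0 13 10 (.step 0 13 7 (.step 0 11 15 (.step 1 5 19 (.step 0 17 12 (.step 5 6 3 (.step 1 7 24 (.step 1 8 20 (.step 1 8 26 (.step 1 9 24 (.step 0 20 23 (.step 1 11 4 (.step 1 11 8 (.step 1 11 20 (.step 0 21 27 (.step 7 11 6 (.step 0 29 19 (.step 0 22 30 (.step 0 22 29 (.step 0 29 1 (.step 0 22 33 (.step 6 13 8 (.step 0 35 24 (.step 0 35 20 (.step 9 14 3 (.step 0 36 38 (.step 9 16 3 (.step 0 37 40 (.step 1 17 20 (.step 0 42 28 (.step 1 17 26 (.step 0 44 31 (.step 0 44 32 (.step 0 44 34 (.step 9 18 3 (.step 0 46 48 (.step 0 29 48 (.split [17,20] [] w3Cxd_0 w3Cxd_5)))))))))))))))))))))))))))))))))))))))))))))))))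

def w3Cy_0 : CertW :=
  (.step 0 29 22 (.step 1 26 28 (.step 0 19 31 (.step 4 28 7 (.step 1 29 21 (.step 0 34 26 (.crule [22,30] 13 (.crule [30,29] 23 (.step 1 33 21 (.step 8 34 4 (.step 9 35 5 (.step 0 32 40 (.step 4 36 0 (.step 5 37 2 (.crule [36,37] 0 (.step 6 38 7 (.step 0 25 45 (.step 0 46 19 (.step 0 39 45 (.step 0 48 41 (.step 1 42 17 (.step 1 43 21 (.step 0 50 51 (.step 1 44 17 (.step 0 53 52 (.step 6 50 0 (.step 0 55 47 (.step 7 51 2 (.step 0 49 57 (.step 1 53 8 (.step 0 59 56 (.step 9 54 5 (.step 0 61 60 (.step 1 58 13 (.step 1 62 29 (.step 0 64 63 (.contra 65)))))))))))))))))))))))))))))))))))))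

def w3Cy_1 : CertW :=
  (.step 0 27 2 (.split [20] [18] w3Cy_0 (.crule [29,22] 30 (.step 0 30 2 (.contra 31)))))

def w3Cy_2 : CertW :=
  (.step 1 20 10 (.step 1 20 18 (.step 8 20 3 (.step 0 21 23 (.step 0 24 2 (.step 1 22 21 (.split [28] [24] w3Cy_1 (.crule [2,27] 27 (.step 0 28 22 (.contra 29))))))))))

def w3Cy_3 : CertW :=
  (.step 1 93 13 (.step 1 94 26 (.step 0 81 97 (.step 0 98 86 (.step 1 95 12 (.step 0 100 91 (.step 1 96 4 (.step 0 102 52 (.step 1 99 29 (.crule [45,101] 10 (.step 0 103 105 (.step 1 104 4 (.step 0 107 106 (.contra 108))))))))))))))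

def w3Cy_4 : CertW :=
  (.step 1 35 10 (.step 0 28 36 (.step 1 35 16 (.step 1 35 18 (.step 0 24 39 (.step 1 35 20 (.step 0 41 24 (.step 0 25 41 (.step 9 35 5 (.crule [38,40] 23 (.step 1 41 19 (.step 0 46 21 (.crule [42,24] 17 (.crule [41,42] 23 (.crule [41,42] 34 (.crule [43,23] 17 (.step 5 45 2 (.step 8 47 4 (.step 4 48 1 (.step 5 49 2 (.crule [49,48] 10 (.step 4 50 7 (.step 4 51 1 (.step 1 54 19 (.step 1 55 21 (.step 0 59 60 (.step 1 56 19 (.step 0 62 61 (.step 1 57 19 (.step 1 57 21 (.step 0 12 65 (.step 0 66 4 (.step 1 58 5 (.step 1 59 26 (.step 6 59 1 (.step 0 70 53 (.step 7 60 2 (.step 0 44 72 (.step 1 62 10 (.step 0 74 71 (.step 1 62 26 (.step 0 76 69 (.step 8 63 4 (.step 0 73 78 (.step 0 79 77 (.step 0 73 78 (.step 1 64 26 (.step 0 75 82 (.step 0 83 31 (.step 6 65 7 (.step 0 85 9 (.step 0 80 85 (.step 0 87 9 (.step 8 67 4 (.step 0 89 29 (.step 0 89 37 (.step 6 68 1 (.step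 0 90 92 (.step 1 84 11 (.step 1 88 29 w3Cy_3))))))))))))))))))))))))))))))))))))))))))))))))))))))))))))

def w3Cy_5 : CertW :=
  (.step 1 71 4 (.step 1 72 19 (.step 0 73 64 (.step 0 73 69 (.step 2 72 1 (.step 6 73 1 (.step 0 77 70 (.crule [76,42] 4 (.step 1 79 17 (.step 0 74 80 (.step 1 79 19 (.step 0 82 75 (.step 1 80 24 (.step 0 67 84 (.step 9 81 3 (.step 0 85 86 (.step 0 87 78 (.step 1 82 10 (.step 0 89 77 (.step 8 83 4 (.step 0 88 91 (.step 1 92 27 (.step 1 93 10 (.step 0 63 94 (.step 0 95 90 (.step 4 96 2 (.step 0 97 68 (.crule [42,96] 2 (.step 0 99 98 (.contra 100))))))))))))))))))))))))))))))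

def w3Cy_6 : CertW :=
  (.step 1 72 2 (.step 0 68 73 (.step 1 72 10 (.step 0 55 75 (.step 6 72 1 (.step 0 55 77 (.step 1 71 8 (.step 0 79 76 (.step 0 79 78 (.step 1 71 20 (.step 0 82 74 (.step 4 81 2 (.step 0 84 83 (.crule [80,81] 2 (.step 0 86 85 (.contra 87))))))))))))))))

def w3Cy_7 : CertW :=
  (.split [5,18] [] (.step 1 72 4 (.step 3 73 1 (.step 0 55 74 (.step 4 75 2 (.step 0 76 68 (.crule [42,75] 2 (.step 0 78 77 (.contra 79)))))))) w3Cy_6)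

def w3Cy_8 : CertW :=
  (.step 1 36 20 (.step 1 36 28 (.step 8 36 5 (.step 0 39 38 (.step 1 37 17 (.crule [24,37] 15 (.crule [24,37] 26 (.step 8 41 5 (.step 5 42 0 (.step 4 43 8 (.step 1 45 17 (.step 1 46 17 (.step 0 12 48 (.step 0 49 5 (.step 7 47 0 (.step 0 34 51 (.step 6 48 8 (.step 0 40 53 (.step 0 54 34 (.step 0 40 53 (.step 0 56 52 (.step 0 40 53 (.step 0 58 10 (.step 0 44 53 (.step 0 60 52 (.step 9 50 3 (.step 0 59 62 (.step 1 57 9 (.step 1 61 9 (.step 1 64 24 (.step 0 16 66 (.step 1 65 16 (.step 1 68 21 (.step 1 69 12 (.split [] [5,18] w3Cy_5 w3Cy_7)))))))))))))))))))))))))))))))))))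

def w3Cy_9 : CertW :=
  (.step 6 87 1 (.step 0 97 96 (.step 9 90 3 (.step 0 99 98 (.step 7 91 0 (.step 0 34 101 (.step 6 93 8 (.step 0 60 103 (.step 0 104 102 (.step 1 100 25 (.step 0 92 106 (.step 1 105 9 (.step 0 108 107 (.contra 109))))))))))))))

def w3Cy_10 : CertW :=
  (.step 0 21 36 (.step 1 36 2 (.step 1 36 10 (.step 1 36 12 (.step 1 36 16 (.step 1 36 18 (.step 0 24 42 (.step 1 36 20 (.step 0 44 24 (.step 8 37 4 (.step 0 40 46 (.step 1 35 0 (.step 1 35 2 (.step 1 35 4 (.step 1 35 8 (.step 1 35 12 (.step 1 35 16 (.step 0 53 43 (.step 1 35 28 (.step 1 35 34 (.step 0 56 0 (.step 1 35 36 (.step 8 35 5 (.step 0 59 55 (.crule [41,43] 23 (.step 0 40 61 (.step 0 62 51 (.crule [41,43] 34 (.crule [45,24] 17 (.step 0 52 65 (.step 0 66 39 (.crule [54,53] 15 (.crule [54,53] 26 (.step 5 61 2 (.step 0 70 48 (.step 4 64 7 (.step 0 72 57 (.step 4 65 1 (.crule [63,65] 10 (.step 5 68 0 (.step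 0 41 76 (.step 0 77 49 (.crule [67,68] 4 (.step 0 38 79 (.step 0 80 50 (.step 4 69 8 (.step 0 41 82 (.step 0 83 58 (.step 1 71 17 (.step 1 73 19 (.step 1 74 19 (.step 0 87 85 (.step 1 75 17 (.step 0 88 89 (.step 1 78 17 (.step 1 81 17 (.step 1 84 17 (.step 1 86 26 (.step 0 47 94 (.step 0 95 16 w3Cy_9))))))))))))))))))))))))))))))))))))))))))))))))))))))))))))

def w3Cy_11 : CertW :=
  (.split [21,16] [] w3Cy_8 w3Cy_10)

def w3Cy_12 : CertW :=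
  (.step 1 21 10 (.step 1 21 16 (.step 1 21 18 (.step 1 21 20 (.step 9 21 3 (.step 0 16 26 (.step 0 27 22 (.step 0 16 26 (.step 0 17 26 (.step 0 30 22 (.step 1 24 17 (.step 9 32 3 (.step 0 15 33 (.split [] [21,16] w3Cy_4 w3Cy_11))))))))))))))

def w3Cy_13 : CertW :=
  (.step 0 27 22 (.step 3 23 8 (.step 0 29 2 (.step 1 26 28 (.step 0 19 31 (.step 1 27 21 (.step 0 33 26 (.crule [27,24] 17 (.crule [22,28] 13 (.step 0 35 36 (.step 4 30 7 (.step 9 34 5 (.step 0 32 39 (.step 4 36 0 (.step 5 37 2 (.crule [36,37] 0 (.step 1 38 21 (.step 1 41 19 (.step 0 45 20 (.step 1 42 21 (.step 0 46 47 (.step 1 43 19 (.step 0 49 48 (.step 6 44 7 (.step 0 25 51 (.step 0 52 40 (.step 1 45 26 (.step 0 54 53 (.step 7 47 2 (.step 0 55 56 (.step 1 49 26 (.step 0 58 57 (.step 8 50 4 (.step 0 60 59 (.contra 61)))))))))))))))))))))))))))))))))))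

def w3Cy_14 : CertW :=
  (.step 1 21 18 (.step 0 7 22 (.step 1 20 18 (.step 1 20 26 (.step 1 22 21 (.split [20] [18] w3Cy_13 (.crule [27,22] 30 (.step 0 28 2 (.contra 29)))))))))

def w3Cy_15 : CertW :=
  (.split [19,16] [] w3Cy_12 w3Cy_14)

def w3Cy_16 : CertW :=
  (.step 1 0 19 (.step 1 0 21 (.step 1 1 17 (.step 5 2 6 (.step 0 1 6 (.step 1 3 26 (.step 1 4 28 (.step 1 5 24 (.step 1 6 17 (.step 1 6 19 (.step 1 6 21 (.step 1 11 24 (.step 0 10 14 (.step 7 12 6 (.step 0 8 16 (.step 1 13 28 (.step 0 9 18 (.split [] [19,16] w3Cy_2 w3Cy_15))))))))))))))))))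

def w3Cyd_0 : CertW :=
  (.step 0 22 29 (.step 1 26 28 (.step 0 31 19 (.step 5 28 7 (.step 1 29 21 (.step 0 26 34 (.crule [22,30] 15 (.crule [30,29] 21 (.step 1 33 21 (.step 9 34 4 (.step 8 35 5 (.step 0 40 32 (.step 5 36 0 (.step 4 37 2 (.crule [36,37] 2 (.step 7 38 7 (.step 0 45 25 (.step 0 19 46 (.step 0 45 39 (.step 0 41 48 (.step 1 42 17 (.step 1 43 21 (.step 0 51 50 (.step 1 44 17 (.step 0 52 53 (.step 7 50 0 (.step 0 47 55 (.step 6 51 2 (.step 0 57 49 (.step 1 53 8 (.step 0 56 59 (.step 8 54 5 (.step 0 60 61 (.step 1 58 13 (.step 1 62 29 (.step 0 63 64 (.contra 65)))))))))))))))))))))))))))))))))))))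

def w3Cyd_1 : CertW :=
  (.step 0 2 27 (.split [18] [20] w3Cyd_0 (.crule [29,22] 28 (.step 0 2 30 (.contra 31)))))

def w3Cyd_2 : CertW :=
  (.step 1 20 10 (.step 1 20 18 (.step 9 20 3 (.step 0 23 21 (.step 0 2 24 (.step 1 22 21 (.split [24] [28] w3Cyd_1 (.crule [2,27] 25 (.step 0 22 28 (.contra 29))))))))))

def w3Cyd_3 : CertW :=
  (.step 1 93 13 (.step 1 94 26 (.step 0 97 81 (.step 0 86 98 (.step 1 95 12 (.step 0 91 100 (.step 1 96 4 (.step 0 52 102 (.step 1 99 29 (.crule [45,101] 8 (.step 0 105 103 (.step 1 104 4 (.step 0 106 107 (.contra 108))))))))))))))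

def w3Cyd_4 : CertW :=
  (.step 1 35 10 (.step 0 36 28 (.step 1 35 16 (.step 1 35 18 (.step 0 39 24 (.step 1 35 20 (.step 0 24 41 (.step 0 41 25 (.step 8 35 5 (.crule [38,40] 21 (.step 1 41 19 (.step 0 21 46 (.crule [42,24] 19 (.crule [41,42] 21 (.crule [41,42] 32 (.crule [43,23] 19 (.step 4 45 2 (.step 9 47 4 (.step 5 48 1 (.step 4 49 2 (.crule [49,48] 8 (.step 5 50 7 (.step 5 51 1 (.step 1 54 19 (.step 1 55 21 (.step 0 60 59 (.step 1 56 19 (.step 0 61 62 (.step 1 57 19 (.step 1 57 21 (.step 0 65 12 (.step 0 4 66 (.step 1 58 5 (.step 1 59 26 (.step 7 59 1 (.step 0 53 70 (.step 6 60 2 (.step 0 72 44 (.step 1 62 10 (.step 0 71 74 (.step 1 62 26 (.step 0 69 76 (.step 9 63 4 (.step 0 78 73 (.step 0 77 79 (.step 0 78 73 (.step 1 64 26 (.step 0 82 75 (.step 0 31 83 (.step 7 65 7 (.step 0 9 85 (.step 0 85 80 (.step 0 9 87 (.step 9 67 4 (.step 0 29 89 (.step 0 37 89 (.step 7 68 1 (.step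 0 92 90 (.step 1 84 11 (.step 1 88 29 w3Cyd_3))))))))))))))))))))))))))))))))))))))))))))))))))))))))))))

def w3Cyd_5 : CertW :=
  (.step 1 71 4 (.step 1 72 19 (.step 0 64 73 (.step 0 69 73 (.step 3 72 1 (.step 7 73 1 (.step 0 70 77 (.crule [76,42] 6 (.step 1 79 17 (.step 0 80 74 (.step 1 79 19 (.step 0 75 82 (.step 1 80 24 (.step 0 84 67 (.step 8 81 3 (.step 0 86 85 (.step 0 78 87 (.step 1 82 10 (.step 0 77 89 (.step 9 83 4 (.step 0 91 88 (.step 1 92 27 (.step 1 93 10 (.step 0 94 63 (.step 0 90 95 (.step 5 96 2 (.step 0 68 97 (.crule [42,96] 0 (.step 0 98 99 (.contra 100))))))))))))))))))))))))))))))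

def w3Cyd_6 : CertW :=
  (.step 1 72 2 (.step 0 73 68 (.step 1 72 10 (.step 0 75 55 (.step 7 72 1 (.step 0 77 55 (.step 1 71 8 (.step 0 76 79 (.step 0 78 79 (.step 1 71 20 (.step 0 74 82 (.step 5 81 2 (.step 0 83 84 (.crule [80,81] 0 (.step 0 85 86 (.contra 87))))))))))))))))

def w3Cyd_7 : CertW :=
  (.split [] [5,18] (.step 1 72 4 (.step 2 73 1 (.step 0 74 55 (.step 5 75 2 (.step 0 68 76 (.crule [42,75] 0 (.step 0 77 78 (.contra 79)))))))) w3Cyd_6)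

def w3Cyd_8 : CertW :=
  (.step 1 36 20 (.step 1 36 28 (.step 9 36 5 (.step 0 38 39 (.step 1 37 17 (.crule [24,37] 13 (.crule [24,37] 24 (.step 9 41 5 (.step 4 42 0 (.step 5 43 8 (.step 1 45 17 (.step 1 46 17 (.step 0 48 12 (.step 0 5 49 (.step 6 47 0 (.step 0 51 34 (.step 7 48 8 (.step 0 53 40 (.step 0 34 54 (.step 0 53 40 (.step 0 52 56 (.step 0 53 40 (.step 0 10 58 (.step 0 53 44 (.step 0 52 60 (.step 8 50 3 (.step 0 62 59 (.step 1 57 9 (.step 1 61 9 (.step 1 64 24 (.step 0 66 16 (.step 1 65 16 (.step 1 68 21 (.step 1 69 12 (.split [5,18] [] w3Cyd_5 w3Cyd_7)))))))))))))))))))))))))))))))))))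

def w3Cyd_9 : CertW :=
  (.step 7 87 1 (.step 0 96 97 (.step 8 90 3 (.step 0 98 99 (.step 6 91 0 (.step 0 101 34 (.step 7 93 8 (.step 0 103 60 (.step 0 102 104 (.step 1 100 25 (.step 0 106 92 (.step 1 105 9 (.step 0 107 108 (.contra 109))))))))))))))

def w3Cyd_10 : CertW :=
  (.step 0 36 21 (.step 1 36 2 (.step 1 36 10 (.step 1 36 12 (.step 1 36 16 (.step 1 36 18 (.step 0 42 24 (.step 1 36 20 (.step 0 24 44 (.step 9 37 4 (.step 0 46 40 (.step 1 35 0 (.step 1 35 2 (.step 1 35 4 (.step 1 35 8 (.step 1 35 12 (.step 1 35 16 (.step 0 43 53 (.step 1 35 28 (.step 1 35 34 (.step 0 0 56 (.step 1 35 36 (.step 9 35 5 (.step 0 55 59 (.crule [41,43] 21 (.step 0 61 40 (.step 0 51 62 (.crule [41,43] 32 (.crule [45,24] 19 (.step 0 65 52 (.step 0 39 66 (.crule [54,53] 13 (.crule [54,53] 24 (.step 4 61 2 (.step 0 48 70 (.step 5 64 7 (.step 0 57 72 (.step 5 65 1 (.crule [63,65] 8 (.step 4 68 0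 (.step 0 76 41 (.step 0 49 77 (.crule [67,68] 6 (.step 0 79 38 (.step 0 50 80 (.step 5 69 8 (.step 0 82 41 (.step 0 58 83 (.step 1 71 17 (.step 1 73 19 (.step 1 74 19 (.step 0 85 87 (.step 1 75 17 (.step 0 89 88 (.step 1 78 17 (.step 1 81 17 (.step 1 84 17 (.step 1 86 26 (.step 0 94 47 (.step 0 16 95 w3Cyd_9))))))))))))))))))))))))))))))))))))))))))))))))))))))))))))

def w3Cyd_11 : CertW :=
  (.split [] [21,16] w3Cyd_8 w3Cyd_10)

def w3Cyd_12 : CertW :=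
  (.step 1 21 10 (.step 1 21 16 (.step 1 21 18 (.step 1 21 20 (.step 8 21 3 (.step 0 26 16 (.step 0 22 27 (.step 0 26 16 (.step 0 26 17 (.step 0 22 30 (.step 1 24 17 (.step 8 32 3 (.step 0 33 15 (.split [21,16] [] w3Cyd_4 w3Cyd_11))))))))))))))

def w3Cyd_13 : CertW :=
  (.step 0 22 27 (.step 2 23 8 (.step 0 2 29 (.step 1 26 28 (.step 0 31 19 (.step 1 27 21 (.step 0 26 33 (.crule [27,24] 19 (.crule [22,28] 15 (.step 0 36 35 (.step 5 30 7 (.step 8 34 5 (.step 0 39 32 (.step 5 36 0 (.step 4 37 2 (.crule [36,37] 2 (.step 1 38 21 (.step 1 41 19 (.step 0 20 45 (.step 1 42 21 (.step 0 47 46 (.step 1 43 19 (.step 0 48 49 (.step 7 44 7 (.step 0 51 25 (.step 0 40 52 (.step 1 45 26 (.step 0 53 54 (.step 6 47 2 (.step 0 56 55 (.step 1 49 26 (.step 0 57 58 (.step 9 50 4 (.step 0 59 60 (.contra 61)))))))))))))))))))))))))))))))))))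

def w3Cyd_14 : CertW :=
  (.step 1 21 18 (.step 0 22 7 (.step 1 20 18 (.step 1 20 26 (.step 1 22 21 (.split [18] [20] w3Cyd_13 (.crule [27,22] 28 (.step 0 2 28 (.contra 29)))))))))

def w3Cyd_15 : CertW :=
  (.split [] [19,16] w3Cyd_12 w3Cyd_14)

def w3Cyd_16 : CertW :=
  (.step 1 0 19 (.step 1 0 21 (.step 1 1 17 (.step 4 2 6 (.step 0 6 1 (.step 1 3 26 (.step 1 4 28 (.step 1 5 24 (.step 1 6 17 (.step 1 6 19 (.step 1 6 21 (.step 1 11 24 (.step 0 14 10 (.step 6 12 6 (.step 0 16 8 (.step 1 13 28 (.step 0 18 9 (.split [19,16] [] w3Cyd_2 w3Cyd_15))))))))))))))))))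

theorem certs_C3 : Certs false 3 := by
  intro j hj
  interval_cases j
  · exact ⟨w3Cx_6, by decide +kernel⟩
  · exact ⟨w3Cy_16, by decide +kernel⟩
  · exact ⟨w3Cxd_6, by decide +kernel⟩
  · exact ⟨w3Cyd_16, by decide +kernel⟩

end Pool.Agent.K7.H46.TW
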