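import Pool.Agent.K7.H46.LO.Check

set_option autoImplicit false

/-!
# The checker with rules for interfaces

Besides the rules of the tangles (`Sys`) there are rules with several premises at a point
(`WRule`). A certificate that is accepted shows that the given facts contradict each other.
-/

namespace Pool.Agent.K7.H46.TW

open Pool.Agent.Y479.LS Pool.Agent.K7.H39.TB Pool.Agent.K7.H46.LO Aut

/-- From `u p ≤ v p` for all `(u, v)` in `prem` to `a p ≤ b p`. -/
structure WRule where
  prem : List (ℕ × ℕ)
  a : ℕ
  b : ℕ

def WRule.Holds {X : Type*} [LinearOrder X] (g : ℕ → Aut X) (c : WRule) : Prop :=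
  ∀ p : X, (∀ q ∈ c.prem, g q.1 p ≤ g q.2 p) → g c.a p ≤ g c.b p

def nthW : List WRule → ℕ → Option WRule
  | [], _ => none
  | t :: _, 0 => some t
  | _ :: l, n + 1 => nthW l n

theorem nthW_mem : ∀ {T : List WRule} {n : ℕ} {t : WRule}, nthW T n = some t → t ∈ T
  | [], _, _, h => by simp [nthW] at h
  | a :: l, 0, t, h => by
    simp only [nthW, Option.some.injEq] at h
    rw [h]; exact List.mem_cons_self
  | a :: l, n + 1, t, h => List.mem_cons_of_mem _ (nthW_mem (by simpa only [nthW] using h))

/-- Are the facts with the numbers `is` the premises `prem` at the point `p`? -/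
def prems (env : Tr) (p : List ℕ) : List (ℕ × ℕ) → List ℕ → Bool
  | [], [] => true
  | q :: l, i :: is =>
    match env.get 14 i with
    | some f => beqW (push (2 * q.1) p) f.u && (beqW (push (2 * q.2) p) f.v && prems env p l is)
    | none => false
  | _, _ => false

/-- The application of a rule. -/
def wrl (L : List WRule) (env : Tr) (is : List ℕ) (n : ℕ) : Option Fact :=
  match nthW L n, is with
  | some ⟨q :: l, a, b⟩, i :: is =>
    match env.get 14 i with
    | some f =>
      let p := push (2 * q.1 + 1) f.u
      match prems env p (q :: l) (i :: is) with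
      | true => some ⟨push (2 * a) p, push (2 * b) p, false⟩
      | false => none
    | none => none
  | _, _ => none

/-- Certificates. -/
inductive CertW
  | step (op a b : ℕ) (rest : CertW)
  | crule (is : List ℕ) (n : ℕ) (rest : CertW)
  | split (u v : List ℕ) (c₁ c₂ : CertW)
  | contra (i : ℕ)

def checkW (T : List Box) (L : List WRule) : CertW → Tr → ℕ → Bool
  | .step op a b c, env, n =>
    match rule T env op a b with
    | none => false
    | some f => checkW T L c (Tr.ins 14 env n f) (n + 1)
  | .crule is m c, env, n =>
    match wrl L env is m with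
    | none => false
    | some f => checkW T L c (Tr.ins 14 env n f) (n + 1)
  | .split u v c₁ c₂, env, n =>
    checkW T L c₁ (Tr.ins 14 env n ⟨u, v, true⟩) (n + 1) &&
      checkW T L c₂ (Tr.ins 14 env n ⟨v, u, false⟩) (n + 1)
  | .contra i, env, _ =>
    match env.get 14 i with
    | none => false
    | some f => f.st && beqW f.u f.v

section sound

variable {X : Type*} [LinearOrder X] {g : ℕ → Aut X} {T : List Box} {L : List WRule} {s : X}

theorem prems_sound {env : Tr} (henv : env.All (Fact.Holds g s)) {p : List ℕ} :
    ∀ {l : List (ℕ × ℕ)} {is : List ℕ}, prems env p l is = true →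
      ∀ q ∈ l, g q.1 (ev g s p) ≤ g q.2 (ev g s p)
  | [], _, _ => by simp
  | q :: l, [], h => by simp [prems] at h
  | q :: l, i :: is, h => by
    simp only [prems] at h
    split at h
    · rename_i f hf
      simp only [Bool.and_eq_true] at h
      obtain ⟨h1, h2, h3⟩ := h
      have hf := (Tr.all_get _ _ _ _ henv hf).le
      rw [← beqW_eq h1, ← beqW_eq h2, ev_push_even, ev_push_even] at hf
      intro q' hq'
      rcases List.mem_cons.mp hq' with rfl | hq'
      · exact hf
      · exact prems_sound henv h3 q' hq'
    · simp at h

theorem wrl_sound (H : ∀ c ∈ L, c.Holds g) {env : Tr} (henv : env.All (Fact.Holds g s))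
    {is : List ℕ} {n : ℕ} {e : Fact} (he : wrl L env is n = some e) : e.Holds g s := by
  unfold wrl at he
  split at he
  · rename_i q l a b i is hc
    have hc := H _ (nthW_mem hc)
    split at he
    · rename_i f hf
      simp only at he
      split at he
      · rename_i h1
        have h2 := prems_sound henv h1
        simp only [Option.some.injEq] at he
        subst he
        simp only [Fact.Holds, ev_push_even]
        exact hc _ h2
      · simp at he
    · simp at he
  · simp at he

/-- The checker is correct. -/
theorem checkW_sound (H : Sys g T) (H' : ∀ c ∈ L, c.Holds g) : ∀ (c : CertW) (env : Tr) (n : ℕ),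
    env.All (Fact.Holds g s) → checkW T L c env n = true → False
  | .step op a b c, env, n, henv, h => by
    simp only [checkW] at h
    split at h
    · simp at h
    · rename_i f hf
      exact checkW_sound H H' c _ _ (Tr.all_ins (rule_sound H henv hf) _ _ _ henv) h
  | .crule is m c, env, n, henv, h => by
    simp only [checkW] at h
    split at h
    · simp at h
    · rename_i f hf
      exact checkW_sound H H' c _ _ (Tr.all_ins (wrl_sound H' henv hf) _ _ _ henv) h
  | .split u v c₁ c₂, env, n, henv, h => by
    simp only [checkW, Bool.and_eq_true] at h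
    rcases lt_or_ge (ev g s u) (ev g s v) with h1 | h1
    · exact checkW_sound H H' c₁ _ _ (Tr.all_ins (f := ⟨u, v, true⟩) h1 _ _ _ henv) h.1
    · exact checkW_sound H H' c₂ _ _ (Tr.all_ins (f := ⟨v, u, false⟩) h1 _ _ _ henv) h.2
  | .contra i, env, n, henv, h => by
    simp only [checkW] at h
    split at h
    · simp at h
    · rename_i f hf
      have hf := Tr.all_get _ _ _ _ henv hf
      simp only [Bool.and_eq_true] at h
      obtain ⟨fu, fv, fs⟩ := f
      simp only at h
      obtain ⟨rfl, h2⟩ := h
      rw [beqW_eq h2] at hf
      exact absurd hf (lt_irrefl _)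

end sound

/-- The tree of a list of facts. -/
def envOf : List Fact → Tr → ℕ → Tr
  | [], t, _ => t
  | f :: l, t, n => envOf l (Tr.ins 14 t n f) (n + 1)

theorem envOf_all {P : Fact → Prop} : ∀ {l : List Fact} {t : Tr} {n : ℕ}, (∀ f ∈ l, P f) →
    t.All P → (envOf l t n).All P
  | [], _, _, _, h => h
  | f :: l, t, n, h1, h2 => envOf_all (l := l) (t := Tr.ins 14 t n f) (n := n + 1)
      (fun g hg => h1 g (List.mem_cons_of_mem _ hg))
      (Tr.all_ins (h1 f List.mem_cons_self) _ _ _ h2)

end Pool.Agent.K7.H46.TW
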